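import Mathlib

/-! Finite `2`-groups acting on finitely generated abelian groups without `2`-torsion. -/

set_option autoImplicit false

namespace Pool.Agent.H.MP_ac3185_nt

section fixed

variable {G : Type*} [Group G] {M : Type*} [AddCommGroup M]

/-- A finite `2`-group acting on `M / N`, where `2 M ⊆ N ≠ M`, has a nonzero fixed vector. -/
theorem sa_exists_fixed [Module.Finite ℤ M] (hG : IsPGroup 2 G) (φ : G → M →+ M)
    (h1 : ∀ m, φ 1 m = m) (hm : ∀ s t m, φ (s * t) m = φ s (φ t m))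
    (N : AddSubgroup M) (hN : ∀ s, ∀ n ∈ N, φ s n ∈ N) (h2 : ∀ m : M, m + m ∈ N)
    (hne : ∃ m, m ∉ N) : ∃ P, P ∉ N ∧ ∀ s, φ s P - P ∈ N := by
  classical
  let f : G → (M ⧸ N) →+ (M ⧸ N) := fun s => QuotientAddGroup.map N N (φ s) fun n hn => hN s n hn
  have hf : ∀ s m, f s (QuotientAddGroup.mk m) = QuotientAddGroup.mk (φ s m) := fun s m => rfl
  let act : MulAction G (M ⧸ N) :=
    { smul := fun s x => f s x
      one_smul := by
        intro x
        obtain ⟨m, rfl⟩ := QuotientAddGroup.mk_surjective x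
        show f 1 _ = _
        rw [hf, h1]
      mul_smul := by
        intro s t x
        obtain ⟨m, rfl⟩ := QuotientAddGroup.mk_surjective x
        show f (s * t) _ = f s (f t _)
        rw [hf, hf, hf, hm] }
  have hs : ∀ (s : G) (x : M ⧸ N), s • x = f s x := fun s x => rfl
  have htwo : ∀ x : M ⧸ N, (2 : ℕ) • x = 0 := by
    intro x
    obtain ⟨m, rfl⟩ := QuotientAddGroup.mk_surjective x
    rw [two_nsmul, ← QuotientAddGroup.mk_add]
    exact (QuotientAddGroup.eq_zero_iff _).2 (h2 m)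
  have hfin : Finite (M ⧸ N) := by
    have : Module.Finite ℤ (M ⧸ N) :=
      Module.Finite.of_surjective (QuotientAddGroup.mk' N).toIntLinearMap
        (QuotientAddGroup.mk'_surjective N)
    have ht : Module.IsTorsion ℤ (M ⧸ N) := by
      intro x
      refine ⟨⟨2, by simp⟩, ?_⟩
      have := htwo x
      show (2 : ℤ) • x = 0
      rw [two_zsmul, ← two_nsmul]
      exact this
    exact Module.finite_of_fg_torsion (M ⧸ N) ht
  obtain ⟨m, hmN⟩ := hne
  have hmne : (QuotientAddGroup.mk m : M ⧸ N) ≠ 0 := fun h =>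
    hmN ((QuotientAddGroup.eq_zero_iff _).1 h)
  have hdvd : 2 ∣ Nat.card (M ⧸ N) := by
    have h := addOrderOf_eq_prime (p := 2) (htwo (QuotientAddGroup.mk m)) hmne
    rw [← h]
    exact addOrderOf_dvd_natCard _
  have : Fact (Nat.Prime 2) := ⟨Nat.prime_two⟩
  have h0 : (0 : M ⧸ N) ∈ MulAction.fixedPoints G (M ⧸ N) := fun s => by
    rw [hs, map_zero]
  obtain ⟨b, hb, hb0⟩ := hG.exists_fixed_point_of_prime_dvd_card_of_fixed_point (M ⧸ N) hdvd h0
  obtain ⟨P, rfl⟩ := QuotientAddGroup.mk_surjective b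
  refine ⟨P, fun h => hb0 ((QuotientAddGroup.eq_zero_iff _).2 h).symm, fun s => ?_⟩
  have h := hb s
  rw [hs, hf] at h
  have h' := QuotientAddGroup.eq.1 h
  have h'' := N.neg_mem h'
  have e : -(-φ s P + P) = φ s P - P := by abel
  rwa [e] at h''

end fixed

section main

variable {G : Type*} [Group G] {M : Type*} [AddCommGroup M]

/-- Every cocycle `R : G → M` with `2 R` a coboundary is a coboundary: `H¹(G, M)[2] = 0`. -/
def NoTwoClass (φ : G → M →+ M) : Prop :=
  ∀ R : G → M, (∀ s t, R (s * t) = R s + φ s (R t)) →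
    (∃ P : M, ∀ s, R s + R s = φ s P - P) → ∃ Q : M, ∀ s, R s = φ s Q - Q

theorem sa_cocycle (φ : G → M →+ M) (hm : ∀ s t m, φ (s * t) m = φ s (φ t m))
    (h2 : ∀ m : M, m + m = 0 → m = 0) (hH : NoTwoClass φ) (P : M)
    (hP : ∀ s, ∃ Z, φ s P - P = Z + Z) : ∃ Q, ∀ s, φ s (P - (Q + Q)) = P - (Q + Q) := by
  choose R hR using hP
  have hc : ∀ s t, R (s * t) = R s + φ s (R t) := by
    intro s t
    have h : (R (s * t) - (R s + φ s (R t))) + (R (s * t) - (R s + φ s (R t))) = 0 := by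
      have e1 := hR (s * t)
      have e2 := hR s
      have e3 := congrArg (φ s) (hR t)
      rw [map_sub, map_add] at e3
      rw [hm] at e1
      have e4 : (R (s * t) - (R s + φ s (R t))) + (R (s * t) - (R s + φ s (R t))) =
        (R (s * t) + R (s * t)) - (R s + R s) - (φ s (R t) + φ s (R t)) := by abel
      rw [e4, ← e1, ← e2, ← e3]
      abel
    exact sub_eq_zero.1 (h2 _ h)
  obtain ⟨Q, hQ⟩ := hH R hc ⟨P, fun s => (hR s).symm⟩
  refine ⟨Q, fun s => ?_⟩
  rw [map_sub, map_add]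
  have e := hR s
  rw [hQ s] at e
  have : φ s P = P + ((φ s Q - Q) + (φ s Q - Q)) := by rw [← e]; abel
  rw [this]
  abel

/-- Case (a). -/
theorem sa_divisible [Module.Finite ℤ M] (hG : IsPGroup 2 G) (φ : G → M →+ M)
    (h1 : ∀ m, φ 1 m = m) (hm : ∀ s t m, φ (s * t) m = φ s (φ t m))
    (h2 : ∀ m : M, m + m = 0 → m = 0) (hH : NoTwoClass φ)
    (hK : ∀ m, (∀ s, φ s m = m) → ∃ m', m = m' + m') (m : M) : ∃ m', m = m' + m' := by
  by_contra hcon
  let N : AddSubgroup M :=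
    { carrier := {x | ∃ y, x = y + y}
      zero_mem' := ⟨0, by simp⟩
      add_mem' := by
        rintro a b ⟨y, rfl⟩ ⟨z, rfl⟩
        exact ⟨y + z, by abel⟩
      neg_mem' := by
        rintro a ⟨y, rfl⟩
        exact ⟨-y, by abel⟩ }
  have hmem : ∀ x, x ∈ N ↔ ∃ y, x = y + y := fun x => Iff.rfl
  obtain ⟨P, hP, hPs⟩ := sa_exists_fixed hG φ h1 hm N (by
    rintro s n ⟨y, rfl⟩
    exact ⟨φ s y, map_add _ _ _⟩) (fun x => ⟨x, rfl⟩) ⟨m, hcon⟩
  obtain ⟨Q, hQ⟩ := sa_cocycle φ hm h2 hH P hPs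
  obtain ⟨m', hm'⟩ := hK _ hQ
  apply hP
  refine ⟨Q + m', ?_⟩
  have : P = (P - (Q + Q)) + (Q + Q) := by abel
  rw [this, hm']
  abel

/-- Case (b). -/
theorem sa_cyclic [Module.Finite ℤ M] (hG : IsPGroup 2 G) (φ : G → M →+ M)
    (h1 : ∀ m, φ 1 m = m) (hm : ∀ s t m, φ (s * t) m = φ s (φ t m))
    (h2 : ∀ m : M, m + m = 0 → m = 0) (hH : NoTwoClass φ) (P₀ : M) (hP₀ : ∀ s, φ s P₀ = P₀)
    (hK : ∀ m, (∀ s, φ s m = m) → ∃ m', m = m' + m' ∨ m = P₀ + (m' + m'))
    (hloc : ∀ Y, (∀ s, ∃ Z, φ s Y - Y = Z + Z ∨ φ s Y - Y = P₀ + (Z + Z)) →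
      ∀ s, ∃ Z, φ s Y - Y = Z + Z) (m : M) :
    ∃ m', m = m' + m' ∨ m = P₀ + (m' + m') := by
  by_contra hcon
  let N : AddSubgroup M :=
    { carrier := {x | ∃ y, x = y + y ∨ x = P₀ + (y + y)}
      zero_mem' := ⟨0, Or.inl (by simp)⟩
      add_mem' := by
        rintro a b ⟨y, rfl | rfl⟩ ⟨z, rfl | rfl⟩
        · exact ⟨y + z, Or.inl (by abel)⟩
        · exact ⟨y + z, Or.inr (by abel)⟩
        · exact ⟨y + z, Or.inr (by abel)⟩
        · exact ⟨P₀ + y + z, Or.inl (by abel)⟩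
      neg_mem' := by
        rintro a ⟨y, rfl | rfl⟩
        · exact ⟨-y, Or.inl (by abel)⟩
        · exact ⟨-y - P₀, Or.inr (by abel)⟩ }
  obtain ⟨P, hP, hPs⟩ := sa_exists_fixed hG φ h1 hm N (by
    rintro s n ⟨y, rfl | rfl⟩
    · exact ⟨φ s y, Or.inl (map_add _ _ _)⟩
    · exact ⟨φ s y, Or.inr (by rw [map_add, map_add, hP₀])⟩) (fun x => ⟨x, Or.inl rfl⟩) ⟨m, hcon⟩
  obtain ⟨Q, hQ⟩ := sa_cocycle φ hm h2 hH P (hloc P hPs)
  obtain ⟨m', hm' | hm'⟩ := hK _ hQ
  · apply hP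
    refine ⟨Q + m', Or.inl ?_⟩
    have : P = (P - (Q + Q)) + (Q + Q) := by abel
    rw [this, hm']
    abel
  · apply hP
    refine ⟨Q + m', Or.inr ?_⟩
    have : P = (P - (Q + Q)) + (Q + Q) := by abel
    rw [this, hm']
    abel

/-- General case: `M = M^G + 2 M`. -/
theorem sa_span [Module.Finite ℤ M] (hG : IsPGroup 2 G) (φ : G → M →+ M)
    (h1 : ∀ m, φ 1 m = m) (hm : ∀ s t m, φ (s * t) m = φ s (φ t m))
    (h2 : ∀ m : M, m + m = 0 → m = 0) (hH : NoTwoClass φ)
    (hloc : ∀ (P Z : G → M) (Y : M), (∀ s t, φ s (P t) = P t) →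
      (∀ s, φ s Y - Y = P s + (Z s + Z s)) →
      (∀ s t r, φ r (Z s + φ s (Z t) - Z (s * t)) = Z s + φ s (Z t) - Z (s * t)) →
      ∀ s, ∃ Q, P s = Q + Q) (m : M) :
    ∃ m₀ m', (∀ s, φ s m₀ = m₀) ∧ m = m₀ + (m' + m') := by
  by_contra hcon
  let N : AddSubgroup M :=
    { carrier := {x | ∃ m₀ m', (∀ s, φ s m₀ = m₀) ∧ x = m₀ + (m' + m')}
      zero_mem' := ⟨0, 0, fun s => map_zero _, by simp⟩
      add_mem' := by
        rintro a b ⟨m₀, m', h0, rfl⟩ ⟨n₀, n', h0', rfl⟩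
        exact ⟨m₀ + n₀, m' + n', fun s => by rw [map_add, h0, h0'], by abel⟩
      neg_mem' := by
        rintro a ⟨m₀, m', h0, rfl⟩
        exact ⟨-m₀, -m', fun s => by rw [map_neg, h0], by abel⟩ }
  obtain ⟨Y, hY, hYs⟩ := sa_exists_fixed hG φ h1 hm N (by
    rintro s n ⟨m₀, m', h0, rfl⟩
    exact ⟨m₀, φ s m', h0, by rw [map_add, map_add, h0]⟩)
    (fun x => ⟨0, x, fun s => map_zero _, by simp⟩) ⟨m, hcon⟩
  choose P Z hP hPZ using hYs
  have hfix : ∀ s t r, φ r (Z s + φ s (Z t) - Z (s * t)) = Z s + φ s (Z t) - Z (s * t) := by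
    intro s t r
    have e1 := hPZ s
    have e2 := congrArg (φ s) (hPZ t)
    have e3 := hPZ (s * t)
    rw [map_sub, map_add, map_add, hP t s] at e2
    rw [hm] at e3
    have key : (Z s + φ s (Z t) - Z (s * t)) + (Z s + φ s (Z t) - Z (s * t)) =
        P (s * t) - P s - P t := by
      have e4 : φ s (φ t Y) - Y = (φ s (φ t Y) - φ s Y) + (φ s Y - Y) := by abel
      rw [e2, e1, e3] at e4
      have e5 : (Z s + φ s (Z t) - Z (s * t)) + (Z s + φ s (Z t) - Z (s * t)) =
        (P t + (φ s (Z t) + φ s (Z t)) + (P s + (Z s + Z s))) -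
          (P (s * t) + (Z (s * t) + Z (s * t))) + (P (s * t) - P s - P t) := by abel
      rw [e5, ← e4]
      abel
    have h : (φ r (Z s + φ s (Z t) - Z (s * t)) - (Z s + φ s (Z t) - Z (s * t))) +
        (φ r (Z s + φ s (Z t) - Z (s * t)) - (Z s + φ s (Z t) - Z (s * t))) = 0 := by
      have e6 := congrArg (φ r) key
      rw [map_add, map_sub (φ r) (P (s * t) - P s), map_sub (φ r) (P (s * t)), hP, hP, hP,
        ← key] at e6
      generalize φ r (Z s + φ s (Z t) - Z (s * t)) = a at e6 ⊢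
      generalize Z s + φ s (Z t) - Z (s * t) = b at e6 ⊢
      have : (a - b) + (a - b) = (a + a) - (b + b) := by abel
      rw [this, e6, sub_self]
    exact sub_eq_zero.1 (h2 _ h)
  choose Q hQ using hloc P Z Y (fun s t => hP t s) hPZ hfix
  obtain ⟨R, hR⟩ := sa_cocycle φ hm h2 hH Y (fun s => ⟨Q s + Z s, by
    rw [hPZ s, hQ s]
    abel⟩)
  exact hY ⟨Y - (R + R), R, hR, by abel⟩

end main

section rank

variable {M : Type*} [AddCommGroup M]

theorem sa_torsion [Module.Finite ℤ M] (h : ∀ m : M, ∃ m', m = m' + m') :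
    Module.IsTorsion ℤ M := by
  have hfg : (⊤ : Submodule ℤ M).FG := Module.Finite.fg_top
  have hle : (⊤ : Submodule ℤ M) ≤ Ideal.span {(2 : ℤ)} • (⊤ : Submodule ℤ M) := by
    intro m _
    obtain ⟨m', hm'⟩ := h m
    rw [hm', ← two_zsmul]
    exact Submodule.smul_mem_smul (Ideal.mem_span_singleton_self 2) trivial
  obtain ⟨r, hr, hr0⟩ :=
    Submodule.exists_sub_one_mem_and_smul_eq_zero_of_fg_of_le_smul _ _ hfg hle
  have hrne : r ≠ 0 := by
    rintro rfl
    rw [Ideal.mem_span_singleton] at hr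
    omega
  intro m
  exact ⟨⟨r, mem_nonZeroDivisors_of_ne_zero hrne⟩, hr0 m trivial⟩

theorem sa_rank_zero [Module.Finite ℤ M] (h : ∀ m : M, ∃ m', m = m' + m') :
    Module.finrank ℤ M = 0 :=
  Module.finrank_eq_zero_iff_isTorsion.2 (sa_torsion h)

/-- `P₀` has infinite order. -/
theorem sa_infinite (h2 : ∀ m : M, m + m = 0 → m = 0) (P₀ : M) (hP : ¬ ∃ m', P₀ = m' + m')
    (n : ℤ) (hn : n • P₀ = 0) : n = 0 := by
  by_contra h0
  have key : ∀ k : ℕ, k ≠ 0 → k • P₀ = 0 → False := by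
    intro k
    induction k using Nat.strong_induction_on with
    | _ k ih =>
      intro hk0 hk
      rcases Nat.even_or_odd' k with ⟨j, rfl | rfl⟩
      · refine ih j (by omega) (by omega) (h2 _ ?_)
        rw [← add_nsmul, ← two_mul]
        exact hk
      · apply hP
        refine ⟨-(j • P₀), ?_⟩
        have e : (2 * j + 1) • P₀ = (j • P₀ + j • P₀) + P₀ := by
          rw [add_nsmul, one_nsmul, two_mul, add_nsmul]
        rw [e] at hk
        exact (eq_neg_of_add_eq_zero_right hk).trans (by abel)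
  apply key n.natAbs (by omega)
  rcases Int.natAbs_eq n with h | h
  · rw [← natCast_zsmul, ← h]
    exact hn
  · have e : ((n.natAbs : ℕ) : ℤ) = -n := by omega
    rw [← natCast_zsmul, e, neg_zsmul, hn, neg_zero]

theorem sa_rank_one [Module.Finite ℤ M] (h2 : ∀ m : M, m + m = 0 → m = 0) (P₀ : M)
    (hP : ¬ ∃ m', P₀ = m' + m') (h : ∀ m : M, ∃ m', m = m' + m' ∨ m = P₀ + (m' + m')) :
    Module.finrank ℤ M = 1 := by
  let N : Submodule ℤ M := Submodule.span ℤ {P₀}
  have hq : Module.finrank ℤ (M ⧸ N) = 0 := by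
    apply sa_rank_zero
    intro x
    obtain ⟨m, rfl⟩ := N.mkQ_surjective x
    obtain ⟨m', hm' | hm'⟩ := h m
    · exact ⟨N.mkQ m', by rw [← map_add, ← hm']⟩
    · refine ⟨N.mkQ m', ?_⟩
      have hz : N.mkQ P₀ = 0 := by
        rw [Submodule.mkQ_apply, Submodule.Quotient.mk_eq_zero]
        exact Submodule.mem_span_singleton_self P₀
      rw [hm', map_add, hz, zero_add, map_add]
  have hN : Module.finrank ℤ N = 1 := by
    have hinj : Function.Injective (LinearMap.toSpanSingleton ℤ M P₀) := by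
      rw [← LinearMap.ker_eq_bot, LinearMap.ker_eq_bot']
      intro n hn
      rw [LinearMap.toSpanSingleton_apply] at hn
      exact sa_infinite h2 P₀ hP n hn
    have hr : LinearMap.range (LinearMap.toSpanSingleton ℤ M P₀) = N :=
      LinearMap.range_toSpanSingleton P₀
    have e := (LinearEquiv.ofInjective _ hinj).finrank_eq
    rw [hr] at e
    rw [← e]
    exact Module.finrank_self ℤ
  have := Submodule.finrank_quotient_add_finrank N
  omega

/-- The rank does not change under an injection `j : N → M` with `M = j(N) + 2 M`. -/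
theorem sa_rank_eq [Module.Finite ℤ M] {N : Type*} [AddCommGroup N] (j : N →+ M)
    (hj : Function.Injective j) (h : ∀ m : M, ∃ n m', m = j n + (m' + m')) :
    Module.finrank ℤ M = Module.finrank ℤ N := by
  let R : Submodule ℤ M := LinearMap.range j.toIntLinearMap
  have hq : Module.finrank ℤ (M ⧸ R) = 0 := by
    apply sa_rank_zero
    intro x
    obtain ⟨m, rfl⟩ := R.mkQ_surjective x
    obtain ⟨n, m', hm'⟩ := h m
    refine ⟨R.mkQ m', ?_⟩
    have hz : R.mkQ (j n) = 0 := by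
      rw [Submodule.mkQ_apply, Submodule.Quotient.mk_eq_zero]
      exact ⟨n, rfl⟩
    rw [hm', map_add, hz, zero_add, map_add]
  have hN : Module.finrank ℤ R = Module.finrank ℤ N :=
    (LinearEquiv.ofInjective j.toIntLinearMap hj).finrank_eq.symm
  have := Submodule.finrank_quotient_add_finrank R
  omega

end rank

end Pool.Agent.H.MP_ac3185_nt
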