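import Pool.Agent.H.MP_ac3185_nt.R.Defs

/-! Rank and action. -/

set_option autoImplicit false

open CategoryTheory AlgebraicGeometry NumberField IsDedekindDomain
open scoped MonObj

namespace Pool.Agent.H.MP_ac3185_nt

universe u

section field

variable {K : Type u} [Field K]

/-- The rank of `A(L)`. -/
noncomputable def rk (A : Over (Spec (.of K))) [GrpObj A] [IsAbVar A]
    (L : IntermediateField K (AlgebraicClosure K)) : ℕ :=
  Module.finrank ℤ (Pts A L)

/-- The action of `Gal(Kbar/K)` on `A(Kbar)`. -/
noncomputable def act (A : Over (Spec (.of K))) [GrpObj A] [IsAbVar A]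
    (s : AlgebraicClosure K ≃ₐ[K] AlgebraicClosure K) (x : Pts A (AlgebraicClosure K)) :
    Pts A (AlgebraicClosure K) :=
  galHom A s x

end field

end Pool.Agent.H.MP_ac3185_nt
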