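import Pool.Agent.H.MP_ac3185_nt.R.Defs
import Pool.Agent.H.MP_ac3185_nt.S.RkAct

/-! Definitions for the theorem on `2`-extensions, in terms of the Galois module `A(Kbar)`. -/

set_option autoImplicit false

open CategoryTheory AlgebraicGeometry NumberField IsDedekindDomain
open scoped MonObj

namespace Pool.Agent.H.MP_ac3185_nt

universe u

section field

variable {K : Type u} [Field K]

/-- The decomposition group in `Gal(Kbar/K)` of the infinite place of `Kbar` given by the complex
embedding `e`. -/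
def infDecomp (e : AlgebraicClosure K →+* ℂ) :
    Set (AlgebraicClosure K ≃ₐ[K] AlgebraicClosure K) :=
  {g | (∀ x, e (g x) = e x) ∨ ∀ x, e (g x) = starRingEnd ℂ (e x)}

/-- `c` is a cocycle on the subset (subgroup) `D` of `Gal(Kbar/K)` with values in `A(Kbar)`. -/
def CocycleOn (A : Over (Spec (.of K))) [GrpObj A] [IsAbVar A]
    (D : Set (AlgebraicClosure K ≃ₐ[K] AlgebraicClosure K))
    (c : (AlgebraicClosure K ≃ₐ[K] AlgebraicClosure K) → Pts A (AlgebraicClosure K)) : Prop :=
  ∀ s ∈ D, ∀ t ∈ D, c (s * t) = c s + galHom A s (c t)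

/-- `c` is a coboundary on `D`. -/
def TrivialOn (A : Over (Spec (.of K))) [GrpObj A] [IsAbVar A]
    (D : Set (AlgebraicClosure K ≃ₐ[K] AlgebraicClosure K))
    (c : (AlgebraicClosure K ≃ₐ[K] AlgebraicClosure K) → Pts A (AlgebraicClosure K)) : Prop :=
  ∃ Q, ∀ g ∈ D, c g = galHom A g Q - Q

/-- `H¹(Gal(F_w/K_v), A(F_w))[2] = 0` at the place with decomposition group `D`: every cocycle on
`D` which is zero on `D ∩ Gal(Kbar/F)` and twice of which is a coboundary on `D` is a coboundary
on `D`. -/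
def LocalTwoTrivial (A : Over (Spec (.of K))) [GrpObj A] [IsAbVar A]
    (F : IntermediateField K (AlgebraicClosure K))
    (D : Set (AlgebraicClosure K ≃ₐ[K] AlgebraicClosure K)) : Prop :=
  ∀ c, CocycleOn A D c → (∀ g ∈ D, g ∈ F.fixingSubgroup → c g = 0) →
    TrivialOn A D (fun g => c g + c g) → TrivialOn A D c

/-- The Galois group of `M / K` has a normal `2`-complement, there are quadratic extensions of `K`
in `M`, and all of them lie in `F`. -/
def QuadraticIn (M F : IntermediateField K (AlgebraicClosure K)) : Prop :=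
  (∃ N : Subgroup (M ≃ₐ[K] M), ∃ _ : N.Normal, Odd (Nat.card N) ∧ IsPGroup 2 ((M ≃ₐ[K] M) ⧸ N)) ∧
  (∃ Q : IntermediateField K (AlgebraicClosure K), Q ≤ M ∧ Module.finrank K Q = 2) ∧
  ∀ Q : IntermediateField K (AlgebraicClosure K), Q ≤ M → Module.finrank K Q = 2 → Q ≤ F

/-- The points of `A(Kbar)` fixed by the elements of `D`; this is `A(K)` for `D = Gal(Kbar/K)`. -/
def fixPts (A : Over (Spec (.of K))) [GrpObj A] [IsAbVar A]
    (D : Set (AlgebraicClosure K ≃ₐ[K] AlgebraicClosure K)) : Set (Pts A (AlgebraicClosure K)) :=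
  {x | ∀ s ∈ D, act A s x = x}

/-- `A(F_w)`: the points of `A(Kbar)` fixed by `D ∩ Gal(Kbar/F)`, where `D` is the decomposition
group of the prime `𝔓` above the place `w` of `F`. -/
def locPts (A : Over (Spec (.of K))) [GrpObj A] [IsAbVar A]
    (F : IntermediateField K (AlgebraicClosure K)) (𝔓 : Ideal (𝓞 (AlgebraicClosure K))) :
    Set (Pts A (AlgebraicClosure K)) :=
  {x | ∀ s ∈ decomp K 𝔓, s ∈ F.fixingSubgroup → act A s x = x}

/-- The function `P` on `Gal(Kbar/K)` is a function on `Gal(F/K)`. -/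
def OnGal (A : Over (Spec (.of K))) [GrpObj A] [IsAbVar A]
    (F : IntermediateField K (AlgebraicClosure K))
    (P : (AlgebraicClosure K ≃ₐ[K] AlgebraicClosure K) → Pts A (AlgebraicClosure K)) : Prop :=
  ∀ s, ∀ t ∈ F.fixingSubgroup, P (s * t) = P s

/-- There are `Y ∈ A(F_w)` and `Z : Gal(F/K) → A(F_w)` with `s Y - Y = P(s) + 2 Z(s)` and
`Z(s) + s Z(t) - Z(s t) ∈ A(K)` for all `s`, `t` in the decomposition group of `𝔓`. -/
def LocallyNull (A : Over (Spec (.of K))) [GrpObj A] [IsAbVar A]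
    (F : IntermediateField K (AlgebraicClosure K))
    (P : (AlgebraicClosure K ≃ₐ[K] AlgebraicClosure K) → Pts A (AlgebraicClosure K))
    (𝔓 : Ideal (𝓞 (AlgebraicClosure K))) : Prop :=
  ∃ Y ∈ locPts A F 𝔓, ∃ Z : (AlgebraicClosure K ≃ₐ[K] AlgebraicClosure K) →
    Pts A (AlgebraicClosure K), OnGal A F Z ∧ (∀ s, Z s ∈ locPts A F 𝔓) ∧
    (∀ s ∈ decomp K 𝔓, act A s Y - Y = P s + (Z s + Z s)) ∧
    ∀ s ∈ decomp K 𝔓, ∀ t ∈ decomp K 𝔓, Z s + act A s (Z t) - Z (s * t) ∈ fixPts A Set.univ

end field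

section numberField

variable {K : Type u} [Field K] [NumberField K]

/-- Every class of order `2` in `H¹(K, A)` which is trivial at all infinite places and at all finite
places outside `S` is trivial. For empty `S` this is `Ш(A/K)[2] = 0`. -/
def ShaTwoTrivial (A : Over (Spec (.of K))) [GrpObj A] [IsAbVar A]
    (S : Set (HeightOneSpectrum (𝓞 K))) : Prop :=
  ∀ c, CocycleOn A Set.univ c →
    (∃ E : IntermediateField K (AlgebraicClosure K), FiniteDimensional K E ∧
      ∀ g ∈ E.fixingSubgroup, c g = 0) →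
    TrivialOn A Set.univ (fun g => c g + c g) →
    (∀ v ∉ S, ∀ 𝔓, Above 𝔓 v → TrivialOn A (decomp K 𝔓) c) →
    (∀ e, TrivialOn A (infDecomp e) c) → TrivialOn A Set.univ c

/-- The finite place `v` splits completely in the Galois extension `F`. -/
def SplitsIn (F : IntermediateField K (AlgebraicClosure K)) (v : HeightOneSpectrum (𝓞 K)) : Prop :=
  ∀ 𝔓, Above 𝔓 v →
    decomp K 𝔓 ⊆ (F.fixingSubgroup : Set (AlgebraicClosure K ≃ₐ[K] AlgebraicClosure K))

/-- For all fields `K ≠ L ⊆ F` the abelian variety `A` is semistable over `L_w`, `w` above `v`, and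
the rank of the split part of the torus of its reduction is even. -/
def EvenTorus (A : Over (Spec (.of K))) [GrpObj A] [IsAbVar A]
    (F : IntermediateField K (AlgebraicClosure K)) (v : HeightOneSpectrum (𝓞 K)) : Prop :=
  ∀ 𝔓, Above 𝔓 v → ∀ L : IntermediateField K (AlgebraicClosure K), L ≤ F → L ≠ ⊥ →
    SemistableOver A L 𝔓 ∧
      ∀ (ℓ : ℕ) [Fact ℓ.Prime], (ℓ : 𝓞 (AlgebraicClosure K)) ∉ 𝔓 → Even (localRank A ℓ L 𝔓)

/-- The hypotheses on the points and the cohomology of `A`, for the Galois extension `F / K` and a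
set `S` of finite places of `K`. -/
structure SilentExtension (A : Over (Spec (.of K))) [GrpObj A] [IsAbVar A]
    (F : IntermediateField K (AlgebraicClosure K)) (S : Set (HeightOneSpectrum (𝓞 K))) :
    Prop where
  /-- `A(K)[2] = 0` -/
  two : ∀ x ∈ fixPts A Set.univ, x + x = 0 → x = 0
  /-- `H¹(Gal(F_w/K_v), A(F_w))[2] = 0` for the finite places `v` outside `S` -/
  finite : ∀ v ∉ S, ∀ 𝔓, Above 𝔓 v → LocalTwoTrivial A F (decomp K 𝔓)
  /-- `H¹(Gal(F_w/K_v), A(F_w))[2] = 0` for the infinite places `v` -/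
  infinite : ∀ e, LocalTwoTrivial A F (infDecomp e)
  /-- the elements of `H¹(K, A)[2]` which are locally trivial outside `S` are zero -/
  sha : ShaTwoTrivial A S
  /-- the functions `P : Gal(F/K) → A(K)` which are locally null at all `v ∈ S` have values in
  `2 A(K)` -/
  prim : ∀ P, OnGal A F P → (∀ s, P s ∈ fixPts A Set.univ) →
    (∀ v ∈ S, ∀ 𝔓, Above 𝔓 v → LocallyNull A F P 𝔓) →
    ∀ s, ∃ Q ∈ fixPts A Set.univ, P s = Q + Q

/-- `Gal(F/K)` is the decomposition group of the finite place `v`, and for all fields `K ≠ L ⊆ F` the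
abelian variety `A` is semistable over `L_w`, `w` above `v`, and the rank of the split part of the
torus of its reduction is odd. -/
def OddNonsplit (A : Over (Spec (.of K))) [GrpObj A] [IsAbVar A]
    (F : IntermediateField K (AlgebraicClosure K)) (v : HeightOneSpectrum (𝓞 K)) : Prop :=
  ∀ 𝔓, Above 𝔓 v →
    (∀ s : AlgebraicClosure K ≃ₐ[K] AlgebraicClosure K,
      ∃ t ∈ decomp K 𝔓, t⁻¹ * s ∈ F.fixingSubgroup) ∧
    ∀ L : IntermediateField K (AlgebraicClosure K), L ≤ F → L ≠ ⊥ → SemistableOver A L 𝔓 ∧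
      ∀ (ℓ : ℕ) [Fact ℓ.Prime], (ℓ : 𝓞 (AlgebraicClosure K)) ∉ 𝔓 → Odd (localRank A ℓ L 𝔓)

/-- The rank of `A(L)` is congruent to the rank of `A(K)` modulo `2`, the global root number of `A`
over `L` is `(-1) ^ (g n + t)`, where `n` is the number of infinite places of `L`, and the parity
conjecture holds for `A` over `L` if and only if the rank of `A(K)` is congruent to `g n + t`
modulo `2`. -/
def ParityOver (A : Over (Spec (.of K))) [GrpObj A] [IsAbVar A] (g : ℕ) (W : LocalSigns K) (t : ℕ)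
    (L : IntermediateField K (AlgebraicClosure K)) : Prop :=
  rk A L ≡ rk A ⊥ [MOD 2] ∧
  signOver W g L = (-1) ^ (g * Nat.card (InfinitePlace L) + t) ∧
  ((-1) ^ rk A L = signOver W g L ↔ rk A ⊥ ≡ g * Nat.card (InfinitePlace L) + t [MOD 2])

end numberField

end Pool.Agent.H.MP_ac3185_nt
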