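import Pool.Agent.H.MP_ac3185_nt.S.Pts
import Pool.Agent.H.MP_ac3185_nt.R.FinB
import Pool.Agent.H.MP_ac3185_nt.R.FinC
import Pool.Agent.H.MP_ac3185_nt.R.FinD
import Pool.Agent.H.MP_ac3185_nt.R.PtsC
import Pool.Agent.H.MP_ac3185_nt.R.CorG

/-! Extensions of `K` whose Galois group has a normal `2`-complement. -/

set_option autoImplicit false

open CategoryTheory AlgebraicGeometry NumberField IsDedekindDomain
open scoped MonObj

namespace Pool.Agent.H.MP_ac3185_nt

universe u

section count

variable {K : Type u} [Field K] [CharZero K]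

/-- The number of quadratic extensions of `K` in `M` is zero or odd. -/
theorem nil_card_odd (M : IntermediateField K (AlgebraicClosure K)) [FiniteDimensional K M]
    [IsGalois K M] [Fintype (QuadFields M)] [Nonempty (QuadFields M)] :
    Odd (Fintype.card (QuadFields M)) := by
  classical
  have hfin : Finite ((M ≃ₐ[K] M) →* ℤˣ) := DFunLike.finite _
  have : Fintype ((M ≃ₐ[K] M) →* ℤˣ) := Fintype.ofFinite _
  have hφ : ∀ ε : {ε : (M ≃ₐ[K] M) →* ℤˣ // ε ≠ 1},
      IntermediateField.lift (IntermediateField.fixedField ε.1.ker) ≤ M ∧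
      Module.finrank K (IntermediateField.lift (IntermediateField.fixedField ε.1.ker)) = 2 := by
    intro ε
    refine ⟨IntermediateField.lift_le _, ?_⟩
    rw [← (IntermediateField.liftAlgEquiv
      (IntermediateField.fixedField ε.1.ker)).toLinearEquiv.finrank_eq,
      IntermediateField.finrank_eq_fixingSubgroup_index,
      IntermediateField.fixingSubgroup_fixedField]
    exact corg_index_ker ε.1 ε.2
  let φ : {ε : (M ≃ₐ[K] M) →* ℤˣ // ε ≠ 1} → QuadFields M := fun ε =>
    ⟨IntermediateField.lift (IntermediateField.fixedField ε.1.ker), hφ ε⟩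
  have hφrel : ∀ ε, relGal M (φ ε).1 = ε.1.ker := by
    intro ε
    show relGal M (IntermediateField.lift (IntermediateField.fixedField ε.1.ker)) = ε.1.ker
    rw [corg_relGal_lift, IntermediateField.fixingSubgroup_fixedField]
  have hinj : Function.Injective φ := by
    intro ε ε' h
    apply Subtype.ext
    apply corg_ker_inj
    rw [← hφrel ε, ← hφrel ε', h]
  have hsurj : Function.Surjective φ := by
    rintro ⟨L, hL, hL2⟩
    have hidx : (relGal M L).index = 2 := by
      rw [corg_relGal_restrict M L hL, ← IntermediateField.finrank_eq_fixingSubgroup_index,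
        ← (IntermediateField.restrictAlgEquiv hL).toLinearEquiv.finrank_eq]
      exact hL2
    obtain ⟨ε, hε⟩ := corg_exists_char _ hidx
    have hε1 : ε ≠ 1 := by
      rintro rfl
      rw [MonoidHom.ker_one] at hε
      rw [← hε, Subgroup.index_top] at hidx
      exact absurd hidx (by norm_num)
    refine ⟨⟨ε, hε1⟩, ?_⟩
    apply Subtype.ext
    show IntermediateField.lift (IntermediateField.fixedField ε.ker) = L
    rw [hε, corg_relGal_restrict M L hL, IsGalois.fixedField_fixingSubgroup,
      IntermediateField.lift_restrict]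
  have hcard : Fintype.card (QuadFields M) =
      Fintype.card {ε : (M ≃ₐ[K] M) →* ℤˣ // ε ≠ 1} :=
    (Fintype.card_of_bijective ⟨hinj, hsurj⟩).symm
  have h1 : Fintype.card {ε : (M ≃ₐ[K] M) →* ℤˣ // ε ≠ 1} + 1 =
      Fintype.card ((M ≃ₐ[K] M) →* ℤˣ) := by
    rw [Fintype.card_subtype_compl, Fintype.card_subtype_eq]
    have : 0 < Fintype.card ((M ≃ₐ[K] M) →* ℤˣ) := Fintype.card_pos
    omega
  have h2 : Even (Fintype.card ((M ≃ₐ[K] M) →* ℤˣ)) := by
    obtain ⟨L⟩ := (inferInstance : Nonempty (QuadFields M))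
    obtain ⟨⟨ε, hε⟩, -⟩ := hsurj L
    have h3 : orderOf ε = 2 := by
      apply orderOf_eq_prime _ hε
      ext g
      simp [sq]
    rw [even_iff_two_dvd, ← h3]
    exact orderOf_dvd_card
  rw [hcard]
  rw [← h1] at h2
  rw [Nat.odd_iff]
  rw [Nat.even_iff] at h2
  omega

end count

variable {K : Type u} [Field K] [NumberField K]

/-- Ranks and root numbers over an extension with a normal `2`-complement. -/
theorem nil_main (A : Over (Spec (.of K))) [GrpObj A] [IsAbVar A]
    (W : LocalSigns K) (hW : IsRootNumbers A W) (g : ℕ)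
    (M : IntermediateField K (AlgebraicClosure K)) [FiniteDimensional K M] [IsGalois K M]
    [Module.Finite ℤ (Pts A M)]
    (hss : ∀ v : HeightOneSpectrum (𝓞 K), Ramified M v → ∀ 𝔓, Above 𝔓 v → SemistableOver A ⊥ 𝔓)
    (F : IntermediateField K (AlgebraicClosure K)) (hM : QuadraticIn M F) (r n : ℕ)
    (hr : Module.finrank ℤ (Pts A (⊥ : IntermediateField K (AlgebraicClosure K))) = r)
    (hF : ∀ L : IntermediateField K (AlgebraicClosure K), L ≤ F → L ≠ ⊥ →
      Module.finrank ℤ (Pts A L) = r ∧
      signOver W g L = (-1) ^ (g * Nat.card (InfinitePlace L) + n)) :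
    Module.finrank ℤ (Pts A M) ≡ r [MOD 2] ∧
    signOver W g M = (-1) ^ (g * Nat.card (InfinitePlace M) + n) := by
  classical
  obtain ⟨⟨N, hN, hodd, h2⟩, ⟨Q₀, hQ₀M, hQ₀⟩, hQ⟩ := hM
  have hfin := finite_quadFields M
  let _ : Fintype (QuadFields M) := Fintype.ofFinite _
  have hne : Nonempty (QuadFields M) := ⟨⟨Q₀, hQ₀M, hQ₀⟩⟩
  have hq := nil_card_odd M
  have hE := even_quadratic M N hodd h2
  set Lf : Option (QuadFields M) ⊕ Fin (Fintype.card (QuadFields M) + 1) →
      IntermediateField K (AlgebraicClosure K) :=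
    Sum.elim (fun o => o.elim M (fun L => L.1)) (fun _ => ⊥) with hLf
  have hLle : ∀ j, Lf j ≤ M := by
    rintro ((_ | L) | i)
    · exact le_refl M
    · exact L.2.1
    · exact bot_le
  have hQne : ∀ L : QuadFields M, L.1 ≠ ⊥ := by
    intro L h
    have h3 := L.2.2
    rw [h, IntermediateField.finrank_bot] at h3
    exact absurd h3 (by norm_num)
  -- ranks
  obtain ⟨V, _, _, ρ, hV⟩ := exists_pointRep M A
  have hfinL : ∀ L : IntermediateField K (AlgebraicClosure K), L ≤ M →
      Module.rank ℤ (Pts A L) = (Module.finrank ℤ (Pts A L) : Cardinal) := by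
    intro L hL
    have : Module.Finite ℤ (Pts A L) :=
      Module.Finite.of_injective (ptsa_j A hL).toIntLinearMap (sp_j_inj A hL)
    exact (Module.finrank_eq_rank ℤ (Pts A L)).symm
  have hR := rank_even_of_relation M Lf hE V ρ (fun j => Module.finrank ℤ (Pts A (Lf j)))
    (fun j => by rw [hV (Lf j) (hLle j)]; exact hfinL (Lf j) (hLle j))
  -- root numbers
  have hp : ∀ v : HeightOneSpectrum (𝓞 K),
      ∏ j, ∏ᶠ w : {w : HeightOneSpectrum (𝓞 (Lf j)) // Divides (Lf j) w v}, W (Lf j) w.1 = 1 := by
    intro v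
    by_cases hv : Ramified M v
    · exact place_product_ramified M A W hW Lf hLle hE v (hss v hv)
    · exact place_product_unramified M A W hW Lf hLle hE v hv
  have hS := signOver_product M A W hW g Lf hLle hE hp
  have hI := infinite_even M Lf hLle hE
  rw [Fintype.sum_sum_type, Fintype.sum_option] at hR hI
  rw [Fintype.prod_sum_type, Fintype.prod_option] at hS
  have hR' : Even (Module.finrank ℤ (Pts A M) + ∑ L : QuadFields M, Module.finrank ℤ (Pts A L.1) +
    ∑ _i : Fin (Fintype.card (QuadFields M) + 1),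
      Module.finrank ℤ (Pts A (⊥ : IntermediateField K (AlgebraicClosure K)))) := hR
  have hI' : Even (Nat.card (InfinitePlace M) + ∑ L : QuadFields M, Nat.card (InfinitePlace L.1) +
    ∑ _i : Fin (Fintype.card (QuadFields M) + 1),
      Nat.card (InfinitePlace (⊥ : IntermediateField K (AlgebraicClosure K)))) := hI
  have hS' : signOver W g M * (∏ L : QuadFields M, signOver W g L.1) *
    (∏ _i : Fin (Fintype.card (QuadFields M) + 1), signOver W g ⊥) = 1 := hS
  have hqe : Even (Fintype.card (QuadFields M) + 1) := hq.add_one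
  rw [Finset.sum_congr rfl fun (L : QuadFields M) _ => (hF L.1 (hQ L.1 L.2.1 L.2.2) (hQne L)).1,
    Finset.sum_const, Finset.sum_const, Finset.card_univ, Finset.card_univ, Fintype.card_fin,
    smul_eq_mul, smul_eq_mul, hr] at hR'
  rw [Finset.sum_const, Finset.card_univ, Fintype.card_fin, smul_eq_mul] at hI'
  rw [Finset.prod_congr rfl fun (L : QuadFields M) _ => (hF L.1 (hQ L.1 L.2.1 L.2.2) (hQne L)).2,
    Finset.prod_const, Finset.card_univ, Fintype.card_fin, Finset.prod_pow_eq_pow_sum,
    Finset.sum_add_distrib, ← Finset.mul_sum, Finset.sum_const, Finset.card_univ,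
    smul_eq_mul] at hS'
  have hbot : signOver W g (⊥ : IntermediateField K (AlgebraicClosure K)) ^
      (Fintype.card (QuadFields M) + 1) = 1 := by
    rcases signOver_sign A W hW g ⊥ with h | h
    · rw [h, one_pow]
    · rw [h, hqe.neg_one_pow]
  rw [hbot, mul_one] at hS'
  obtain ⟨q, hqq⟩ : ∃ q, q = Fintype.card (QuadFields M) := ⟨_, rfl⟩
  obtain ⟨I, hII⟩ : ∃ I, I = ∑ L : QuadFields M, Nat.card (InfinitePlace L.1) := ⟨_, rfl⟩
  rw [← hqq] at hq hqe hR' hI' hS'
  rw [← hII] at hI' hS'
  constructor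
  · obtain ⟨k, hk⟩ := hq
    obtain ⟨m, hm⟩ := hR'
    have h3 : Module.finrank ℤ (Pts A M) + r = 2 * (m - (2 * k + 1) * r) := by
      have h4 : (2 * k + 1) * r + (2 * k + 1 + 1) * r = 2 * ((2 * k + 1) * r) + r := by ring
      rw [hk] at hm
      omega
    show Module.finrank ℤ (Pts A M) % 2 = r % 2
    omega
  · have h3 : signOver W g M = (-1) ^ (g * I + q * n) := by
      have h4 : ((-1 : ℤ)) ^ (g * I + q * n) * (-1) ^ (g * I + q * n) = 1 := by
        rw [← mul_pow]
        simp
      calc signOver W g M = signOver W g M * ((-1 : ℤ) ^ (g * I + q * n) * (-1) ^ (g * I + q * n)) := by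
            rw [h4, mul_one]
        _ = (signOver W g M * (-1 : ℤ) ^ (g * I + q * n)) * (-1) ^ (g * I + q * n) := by ring
        _ = (-1) ^ (g * I + q * n) := by rw [hS', one_mul]
    rw [h3, neg_one_pow_eq_pow_mod_two, neg_one_pow_eq_pow_mod_two
      (n := g * Nat.card (InfinitePlace M) + n)]
    congr 1
    have h5 : Nat.card (InfinitePlace M) ≡ I [MOD 2] := by
      have h6 : Even ((q + 1) * Nat.card (InfinitePlace
        (⊥ : IntermediateField K (AlgebraicClosure K)))) := hqe.mul_right _
      show Nat.card (InfinitePlace M) % 2 = I % 2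
      obtain ⟨a, ha⟩ := h6
      obtain ⟨b, hb⟩ := hI'
      omega
    have h7 : q * n ≡ 1 * n [MOD 2] := Nat.ModEq.mul_right n (by
      show q % 2 = 1 % 2
      rw [Nat.odd_iff.1 hq])
    rw [one_mul] at h7
    exact ((h5.symm.mul_left g).add h7)

end Pool.Agent.H.MP_ac3185_nt
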