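import Pool.Agent.H.MP_ac3185_nt.S.Defs
import Pool.Agent.H.MP_ac3185_nt.R.FinB
import Pool.Agent.H.MP_ac3185_nt.R.FinC
import Pool.Agent.H.MP_ac3185_nt.R.FinD

/-! Root numbers over `2`-extensions. -/

set_option autoImplicit false

open CategoryTheory AlgebraicGeometry NumberField IsDedekindDomain
open scoped MonObj Pointwise

namespace Pool.Agent.H.MP_ac3185_nt

universe u

variable {K : Type u} [Field K] [NumberField K]

theorem rt_relGal_ne_top (F : IntermediateField K (AlgebraicClosure K)) [FiniteDimensional K F]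
    [IsGalois K F] (L : IntermediateField K (AlgebraicClosure K)) (hL : L ≤ F) (hL' : L ≠ ⊥) :
    relGal F L ≠ ⊤ := by
  intro h
  apply hL'
  rw [eq_bot_iff]
  intro x hx
  have h1 : ∀ s : F ≃ₐ[K] F, s ⟨x, hL hx⟩ = ⟨x, hL hx⟩ := by
    intro s
    have hs : s ∈ relGal F L := by rw [h]; trivial
    exact hs ⟨x, hL hx⟩ hx
  obtain ⟨k, hk⟩ := (IsGalois.mem_range_algebraMap_iff_fixed (F := K) (E := F) ⟨x, hL hx⟩).2 h1
  rw [IntermediateField.mem_bot]
  exact ⟨k, congrArg Subtype.val hk⟩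

/-- The number of places above a place which splits completely is even. -/
theorem rt_card_even (F : IntermediateField K (AlgebraicClosure K)) [FiniteDimensional K F]
    [IsGalois K F] (hG : IsPGroup 2 (F ≃ₐ[K] F))
    (L : IntermediateField K (AlgebraicClosure K)) (hL : L ≤ F) (hL' : L ≠ ⊥)
    {Ω : Type*} (T : (F ≃ₐ[K] F) → Ω) (hT : Function.Surjective T)
    (hT2 : ∀ g g', T g = T g' ↔ ∃ h ∈ relGal F L, g' = h * g) : Even (Nat.card Ω) := by
  have hc : Nat.card Ω = (relGal F L).index := by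
    let f : (F ≃ₐ[K] F) ⧸ relGal F L → Ω := fun q => Quotient.liftOn' q (fun g => T g⁻¹) (by
      intro a b hab
      rw [QuotientGroup.leftRel_apply] at hab
      show T a⁻¹ = T b⁻¹
      rw [hT2]
      exact ⟨(a⁻¹ * b)⁻¹, (relGal F L).inv_mem hab, by group⟩)
    have hf : ∀ g, f (QuotientGroup.mk g) = T g⁻¹ := fun g => rfl
    have hbij : Function.Bijective f := by
      constructor
      · intro x y hxy
        obtain ⟨a, rfl⟩ := QuotientGroup.mk_surjective x
        obtain ⟨b, rfl⟩ := QuotientGroup.mk_surjective y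
        rw [hf, hf, hT2] at hxy
        obtain ⟨h, hh, he⟩ := hxy
        rw [QuotientGroup.eq]
        have : a⁻¹ * b = h⁻¹ := by
          have e : b = (h * a⁻¹)⁻¹ := by rw [← he, inv_inv]
          rw [e]
          group
        rw [this]
        exact (relGal F L).inv_mem hh
      · intro w
        obtain ⟨g, rfl⟩ := hT w
        exact ⟨QuotientGroup.mk g⁻¹, by rw [hf, inv_inv]⟩
    rw [← Nat.card_congr (Equiv.ofBijective f hbij)]
    rfl
  rw [hc]
  have : Fact (Nat.Prime 2) := ⟨Nat.prime_two⟩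
  obtain ⟨n, hn⟩ := hG.index (relGal F L)
  rw [hn]
  rcases Nat.eq_zero_or_pos n with rfl | hpos
  · exfalso
    rw [pow_zero, Subgroup.index_eq_one] at hn
    exact rt_relGal_ne_top F L hL hL' hn
  · exact even_iff_two_dvd.2 (dvd_pow_self 2 hpos.ne')

theorem rt_smul_base (σ : AlgebraicClosure K ≃ₐ[K] AlgebraicClosure K)
    (v : HeightOneSpectrum (𝓞 K)) (𝔓 : Ideal (𝓞 (AlgebraicClosure K))) (h : Above 𝔓 v) :
    Above (σ • 𝔓) v := above_smul v 𝔓 h σ

/-- The product of the root numbers above a place which splits completely. -/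
theorem rt_split (F : IntermediateField K (AlgebraicClosure K)) [FiniteDimensional K F]
    [IsGalois K F] (hG : IsPGroup 2 (F ≃ₐ[K] F)) (A : Over (Spec (.of K))) [GrpObj A] [IsAbVar A]
    (W : LocalSigns K) (hW : IsRootNumbers A W) (v : HeightOneSpectrum (𝓞 K))
    (hv : SplitsIn F v) (L : IntermediateField K (AlgebraicClosure K)) (hL : L ≤ F) (hL' : L ≠ ⊥) :
    ∏ᶠ w : {w : HeightOneSpectrum (𝓞 L) // Divides L w v}, W L w.1 = 1 := by
  classical
  have hfd : FiniteDimensional K L := finc_fin F L hL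
  obtain ⟨𝔓, h𝔓⟩ := exists_above v
  obtain ⟨a, b, hab⟩ := hW.unramified v
  obtain ⟨T, hT1, hT2, hT3⟩ := exists_T F L hL v 𝔓 h𝔓
  have hFL : F.fixingSubgroup ≤ L.fixingSubgroup := IntermediateField.fixingSubgroup_antitone hL
  have hval : ∀ ω, W L (ω : {w : HeightOneSpectrum (𝓞 L) // Divides L w v}).1 = a := by
    intro ω
    obtain ⟨g, rfl⟩ := hT1 ω
    obtain ⟨σ, rfl⟩ := AlgEquiv.restrictNormalHom_surjective (F := K) (K₁ := F)
      (AlgebraicClosure K) g
    have hab' : Above (σ • 𝔓) v := above_smul v 𝔓 h𝔓 σ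
    have hD : decompGrp K (σ • 𝔓) ≤ L.fixingSubgroup := fun d hd => hFL (hv _ hab' hd)
    refine (hab L _ (σ • 𝔓) (hT3 σ) hab' (fun d hd => hD (inertiaGrp_le _ hd))).1 ?_
    rw [Subgroup.relIndex_eq_one.2 hD]
    exact odd_one
  have hfin : Finite {w : HeightOneSpectrum (𝓞 L) // Divides L w v} := Finite.of_surjective T hT1
  have := Fintype.ofFinite {w : HeightOneSpectrum (𝓞 L) // Divides L w v}
  have hDbar : ∀ d : (decompGrp K 𝔓).map (AlgEquiv.restrictNormalHom F), (d : F ≃ₐ[K] F) = 1 := by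
    rintro ⟨_, d, hd, rfl⟩
    ext z
    exact (AlgEquiv.restrictNormal_commutes d F z).trans
      ((IntermediateField.mem_fixingSubgroup_iff _ _).1 (hv 𝔓 h𝔓 hd) z z.2)
  have heven := rt_card_even F hG L hL hL' T hT1 (by
    intro g g'
    rw [hT2]
    constructor
    · rintro ⟨h, hh, d, he⟩
      exact ⟨h, hh, by rw [he, hDbar d, mul_one]⟩
    · rintro ⟨h, hh, he⟩
      exact ⟨h, hh, 1, by rw [he]; simp⟩)
  have ha : a = 1 ∨ a = -1 := by
    rw [← hval (T 1)]
    exact hW.sign L _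
  rw [finprod_eq_prod_of_fintype, Finset.prod_congr rfl fun ω _ => hval ω, Finset.prod_const,
    Finset.card_univ, ← Nat.card_eq_fintype_card]
  rcases ha with rfl | rfl
  · exact one_pow _
  · exact heven.neg_one_pow

/-- There is a prime number outside `𝔓`. -/
theorem rt_exists_ell (v : HeightOneSpectrum (𝓞 K)) (𝔓 : Ideal (𝓞 (AlgebraicClosure K)))
    (h𝔓 : Above 𝔓 v) : ∃ ℓ : ℕ, ∃ _ : Fact ℓ.Prime, (ℓ : 𝓞 (AlgebraicClosure K)) ∉ 𝔓 := by
  obtain ⟨B, hB⟩ := exists_bound v 𝔓 h𝔓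
  obtain ⟨ℓ, hℓ, hp⟩ := Nat.exists_infinite_primes (B + 1)
  exact ⟨ℓ, ⟨hp⟩, hB ℓ hp (by omega)⟩

/-- The product of the root numbers above a place with even tori. -/
theorem rt_even (F : IntermediateField K (AlgebraicClosure K)) [FiniteDimensional K F]
    [IsGalois K F] (A : Over (Spec (.of K))) [GrpObj A] [IsAbVar A]
    (W : LocalSigns K) (hW : IsRootNumbers A W) (v : HeightOneSpectrum (𝓞 K))
    (hv : EvenTorus A F v) (L : IntermediateField K (AlgebraicClosure K)) (hL : L ≤ F)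
    (hL' : L ≠ ⊥) :
    ∏ᶠ w : {w : HeightOneSpectrum (𝓞 L) // Divides L w v}, W L w.1 = 1 := by
  have hfd : FiniteDimensional K L := finc_fin F L hL
  obtain ⟨𝔓, h𝔓⟩ := exists_above v
  have hval : ∀ ω, W L (ω : {w : HeightOneSpectrum (𝓞 L) // Divides L w v}).1 = 1 := by
    rintro ⟨w, hw⟩
    obtain ⟨σ, hσ⟩ := exists_translate L v 𝔓 h𝔓 w hw
    have hab' : Above (σ • 𝔓) v := above_smul v 𝔓 h𝔓 σ
    obtain ⟨ℓ, hℓ, hℓ𝔓⟩ := rt_exists_ell v (σ • 𝔓) hab'
    obtain ⟨hss, hev⟩ := hv (σ • 𝔓) hab' L hL hL'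
    show W L w = 1
    rw [hW.semistable L w (σ • 𝔓) hσ hss ℓ hℓ𝔓]
    exact (hev ℓ hℓ𝔓).neg_one_pow
  rw [finprod_congr hval]
  exact finprod_one

/-- The rank of the torus over the extensions. -/
theorem rt_localRank (F : IntermediateField K (AlgebraicClosure K)) [FiniteDimensional K F]
    [IsGalois K F] (A : Over (Spec (.of K))) [GrpObj A] [IsAbVar A]
    (𝔓 : Ideal (𝓞 (AlgebraicClosure K))) (ℓ : ℕ) [Fact ℓ.Prime]
    (hI : ∀ g ∈ inertia K 𝔓, IsUnip (galV A ℓ g))
    (hD : ∀ g ∈ decomp K 𝔓, ∀ x, galV A ℓ g x - x ∈ fixedBy (ops A ℓ (inertia K 𝔓)))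
    (L : IntermediateField K (AlgebraicClosure K)) (hL : L ≤ F) :
    localRank A ℓ L 𝔓 = Module.finrank ℚ_[ℓ]
        (VTate ℓ (Pts A (AlgebraicClosure K)) ⧸ fixedBy (ops A ℓ (inertia K 𝔓))) := by
  have h1 : fixedBy (ops A ℓ (inertia K 𝔓 ∩
      (L.fixingSubgroup : Set (AlgebraicClosure K ≃ₐ[K] AlgebraicClosure K)))) =
      fixedBy (ops A ℓ (inertia K 𝔓)) :=
    fixedBy_finiteIndex (galRep A ℓ) (AlgEquiv.restrictNormalHom F : _ →* (F ≃ₐ[K] F))
      (inertiaGrp K 𝔓) (fun g hg => hI g hg) L.fixingSubgroup (ker_le_fixingSubgroup F L hL)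
  unfold localRank
  rw [absb_quotRank_congr _ (ops A ℓ (inertia K 𝔓)) _ h1]
  unfold quotRank
  have h2 : quotInv (ops A ℓ (inertia K 𝔓)) (ops A ℓ (decomp K 𝔓 ∩
      (L.fixingSubgroup : Set (AlgebraicClosure K ≃ₐ[K] AlgebraicClosure K)))) = ⊤ := by
    rw [eq_top_iff]
    rintro y -
    obtain ⟨x, rfl⟩ := Submodule.mkQ_surjective _ y
    refine ⟨x, ?_, rfl⟩
    rintro _ ⟨g, hg, rfl⟩
    exact hD g hg.1 x
  rw [h2]
  exact finrank_top _ _

/-- The product of the root numbers above a place with odd tori. -/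
theorem rt_odd (F : IntermediateField K (AlgebraicClosure K)) [FiniteDimensional K F]
    [IsGalois K F] (A : Over (Spec (.of K))) [GrpObj A] [IsAbVar A]
    (W : LocalSigns K) (hW : IsRootNumbers A W) (v : HeightOneSpectrum (𝓞 K))
    (hv : OddTorus A F v) (L : IntermediateField K (AlgebraicClosure K)) (hL : L ≤ F)
    (hL' : L ≠ ⊥) :
    ∏ᶠ w : {w : HeightOneSpectrum (𝓞 L) // Divides L w v}, W L w.1 = -1 := by
  classical
  have hfd : FiniteDimensional K L := finc_fin F L hL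
  obtain ⟨𝔓, h𝔓⟩ := exists_above v
  obtain ⟨ℓ, hℓ, hℓ𝔓⟩ := rt_exists_ell v 𝔓 h𝔓
  obtain ⟨hfull, hrest⟩ := hv 𝔓 h𝔓
  obtain ⟨T, hT1, hT2, hT3⟩ := exists_T F L hL v 𝔓 h𝔓
  have hone : ∀ g, T 1 = T g := by
    intro g
    rw [hT2]
    obtain ⟨d, hd, hdg⟩ := hfull g
    exact ⟨1, (relGal F L).one_mem, ⟨g, d, hd, hdg⟩, by simp⟩
  obtain ⟨hss, hodd⟩ := hrest L hL hL'
  have hprime : PrimeOver L 𝔓 (T 1).1 := by
    have h := hT3 1
    rwa [one_smul, map_one] at h
  have hval : W L (T 1).1 = -1 := by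
    rw [hW.semistable L (T 1).1 𝔓 hprime hss ℓ hℓ𝔓]
    exact (hodd ℓ hℓ𝔓).neg_one_pow
  have huniq : Unique {w : HeightOneSpectrum (𝓞 L) // Divides L w v} :=
    { default := T 1
      uniq := by
        intro ω
        obtain ⟨g, rfl⟩ := hT1 ω
        exact (hone g).symm }
  rw [finprod_unique]
  have : (default : {w : HeightOneSpectrum (𝓞 L) // Divides L w v}) = T 1 :=
    (huniq.uniq (T 1)).symm ▸ rfl
  rw [this]
  exact hval

/-- The global root number. -/
theorem rt_sign (F : IntermediateField K (AlgebraicClosure K)) [FiniteDimensional K F]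
    [IsGalois K F] (hG : IsPGroup 2 (F ≃ₐ[K] F)) (A : Over (Spec (.of K))) [GrpObj A] [IsAbVar A]
    (W : LocalSigns K) (hW : IsRootNumbers A W) (T : Finset (HeightOneSpectrum (𝓞 K)))
    (hT : ∀ v ∈ T, OddTorus A F v) (hT' : ∀ v ∉ T, SplitsIn F v ∨ EvenTorus A F v) (g : ℕ)
    (L : IntermediateField K (AlgebraicClosure K)) (hL : L ≤ F) (hL' : L ≠ ⊥) :
    signOver W g L = (-1) ^ (g * Nat.card (InfinitePlace L) + T.card) := by
  classical
  have hfd : FiniteDimensional K L := finc_fin F L hL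
  unfold signOver
  rw [pow_add, (finprod_places L (W L) (hW.almost L)).2]
  congr 1
  have h1 : ∀ v, v ∉ T → ∏ᶠ w : {w : HeightOneSpectrum (𝓞 L) // Divides L w v}, W L w.1 = 1 := by
    intro v hv
    rcases hT' v hv with h | h
    · exact rt_split F hG A W hW v h L hL hL'
    · exact rt_even F A W hW v h L hL hL'
  rw [finprod_eq_prod_of_mulSupport_subset (s := T) _ (by
    intro v hv
    by_contra hvT
    exact hv (h1 v (fun h => hvT h)))]
  rw [Finset.prod_congr rfl fun v hv => rt_odd F A W hW v (hT v hv) L hL hL', Finset.prod_const]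

end Pool.Agent.H.MP_ac3185_nt
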