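import Pool.Agent.H.MP_ac3185_nt.S.Rank
import Pool.Agent.H.MP_ac3185_nt.S.Root
import Pool.Agent.H.MP_ac3185_nt.S.Nil

/-! The hypotheses of the theorem on `2`-extensions in the form used by its proof. -/

set_option autoImplicit false

open CategoryTheory AlgebraicGeometry NumberField IsDedekindDomain
open scoped MonObj

namespace Pool.Agent.H.MP_ac3185_nt

universe u

section conv

variable {K : Type u} [Field K]

theorem st_fix_bar (A : Over (Spec (.of K))) [GrpObj A] [IsAbVar A]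
    (x : Pts A (⊥ : IntermediateField K (AlgebraicClosure K))) :
    toBar A ⊥ x ∈ fixPts A Set.univ := by
  intro s _
  apply sp_bar_fix
  rw [IntermediateField.fixingSubgroup_bot]
  trivial

theorem st_bar_fix [CharZero K] (A : Over (Spec (.of K))) [GrpObj A] [IsAbVar A]
    (x : Pts A (AlgebraicClosure K)) (hx : x ∈ fixPts A Set.univ) : ∃ y, toBar A ⊥ y = x :=
  sp_bar_of_fixed A ⊥ x fun g _ => hx g trivial

theorem st_res_one (F : IntermediateField K (AlgebraicClosure K)) [Normal K F]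
    (t : AlgebraicClosure K ≃ₐ[K] AlgebraicClosure K) (ht : t ∈ F.fixingSubgroup) :
    AlgEquiv.restrictNormalHom F t = 1 := by
  ext z
  have h1 := AlgEquiv.restrictNormal_commutes t F z
  exact h1.trans ((IntermediateField.mem_fixingSubgroup_iff _ _).1 ht z z.2)

end conv

section conv2

variable {K : Type u} [Field K] [NumberField K]

theorem st_two {A : Over (Spec (.of K))} [GrpObj A] [IsAbVar A]
    {F : IntermediateField K (AlgebraicClosure K)} {S : Set (HeightOneSpectrum (𝓞 K))}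
    (h : SilentExtension A F S) (x : Pts A (⊥ : IntermediateField K (AlgebraicClosure K)))
    (hx : x + x = 0) : x = 0 := by
  apply sp_bar_inj A ⊥
  rw [h.two _ (st_fix_bar A x) (by rw [← map_add, hx, map_zero]), map_zero]

theorem st_prim {A : Over (Spec (.of K))} [GrpObj A] [IsAbVar A]
    {F : IntermediateField K (AlgebraicClosure K)} [Normal K F]
    {S : Set (HeightOneSpectrum (𝓞 K))} (h : SilentExtension A F S)
    (P : (F ≃ₐ[K] F) → Pts A (⊥ : IntermediateField K (AlgebraicClosure K)))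
    (hP : ∀ v ∈ S, ∀ 𝔓, Above 𝔓 v → LocallyZero A F P 𝔓) (s : F ≃ₐ[K] F) : ∃ Q, P s = Q + Q := by
  obtain ⟨g, rfl⟩ := AlgEquiv.restrictNormalHom_surjective (K₁ := F) (AlgebraicClosure K) s
  obtain ⟨Q, hQ, hPQ⟩ := h.prim (fun g => toBar A ⊥ (P (AlgEquiv.restrictNormalHom F g))) (by
    intro s t ht
    simp only
    rw [map_mul, st_res_one F t ht, mul_one]) (fun s => st_fix_bar A _) (by
    intro v hv 𝔓 h𝔓
    obtain ⟨Y, Z, hY, hZ, h1, h2⟩ := hP v hv 𝔓 h𝔓
    refine ⟨Y, hY, fun g => Z (AlgEquiv.restrictNormalHom F g), ?_, fun s => hZ _, h1, ?_⟩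
    · intro s t ht
      simp only
      rw [map_mul, st_res_one F t ht, mul_one]
    · intro s hs t ht
      obtain ⟨Q, hQ⟩ := h2 s hs t ht
      show Z (AlgEquiv.restrictNormalHom F s) + galHom A s (Z (AlgEquiv.restrictNormalHom F t)) -
        Z (AlgEquiv.restrictNormalHom F (s * t)) ∈ fixPts A Set.univ
      rw [hQ]
      exact st_fix_bar A Q) g
  obtain ⟨Q', rfl⟩ := st_bar_fix A Q hQ
  refine ⟨Q', sp_bar_inj A ⊥ ?_⟩
  rw [map_add]
  exact hPQ

theorem st_odd {A : Over (Spec (.of K))} [GrpObj A] [IsAbVar A]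
    {F : IntermediateField K (AlgebraicClosure K)} [Normal K F] {v : HeightOneSpectrum (𝓞 K)}
    (h : OddNonsplit A F v) : OddTorus A F v := by
  intro 𝔓 h𝔓
  obtain ⟨h1, h2⟩ := h 𝔓 h𝔓
  refine ⟨fun s => ?_, h2⟩
  obtain ⟨g, rfl⟩ := AlgEquiv.restrictNormalHom_surjective (K₁ := F) (AlgebraicClosure K) s
  obtain ⟨t, ht, htg⟩ := h1 g
  refine ⟨t, ht, ?_⟩
  have h3 := st_res_one F _ htg
  rw [map_mul, map_inv, inv_mul_eq_one] at h3
  exact h3

end conv2

end Pool.Agent.H.MP_ac3185_nt
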