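import Pool.Agent.H.MP_ac3185_nt.R.PtsB
import Pool.Agent.H.MP_ac3185_nt.S.Cond

/-! Cocycles with values in the points of an abelian variety: definitions for the theorem on
`2`-extensions. -/

set_option autoImplicit false

open CategoryTheory AlgebraicGeometry NumberField IsDedekindDomain
open scoped MonObj

namespace Pool.Agent.H.MP_ac3185_nt

universe u

section gal

variable {K : Type u} [Field K]

/-- The morphism `Spec Kbar → Spec L`. -/
noncomputable def barMap (L : IntermediateField K (AlgebraicClosure K)) :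
    specOver K (AlgebraicClosure K) ⟶ specOver K L :=
  Over.homMk (Spec.map (CommRingCat.ofHom (algebraMap L (AlgebraicClosure K)))) (by
    show Spec.map _ ≫ Spec.map _ = Spec.map _
    rw [← Spec.map_comp]
    congr 1)

/-- The inclusion `A(L) → A(Kbar)`. -/
noncomputable def toBar (A : Over (Spec (.of K))) [GrpObj A] [IsAbVar A]
    (L : IntermediateField K (AlgebraicClosure K)) : Pts A L →+ Pts A (AlgebraicClosure K) where
  toFun y := Additive.ofMul (barMap L ≫ (Additive.toMul y : specOver K L ⟶ A))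
  map_zero' := by
    show Additive.ofMul (barMap L ≫ (1 : specOver K L ⟶ A)) = Additive.ofMul 1
    rw [MonObj.comp_one]
  map_add' x y := by
    have h : barMap L ≫ ((Additive.toMul x : specOver K L ⟶ A) * Additive.toMul y) =
        (barMap L ≫ Additive.toMul x) * (barMap L ≫ Additive.toMul y) := MonObj.comp_mul _ _ _
    exact congrArg Additive.ofMul h

/-- `Y` lies in the group `A(F_w)` of the points of `A(Kbar)` fixed by `D ∩ Gal(Kbar/F)`, where `D`
is the decomposition group of `𝔓` and `w` the place of `F` below `𝔓`. -/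
def IsLocalPt (A : Over (Spec (.of K))) [GrpObj A] [IsAbVar A]
    (F : IntermediateField K (AlgebraicClosure K)) (𝔓 : Ideal (𝓞 (AlgebraicClosure K)))
    (Y : Pts A (AlgebraicClosure K)) : Prop :=
  ∀ s ∈ decomp K 𝔓, s ∈ F.fixingSubgroup → galHom A s Y = Y

/-- There are `Y` in `A(F_w)` and `Z : Gal(F/K) → A(F_w)` with `s Y - Y = P(s) + 2 Z(s)` and
`Z(s) + s Z(t) - Z(s t)` in `A(K)` for all `s`, `t` in the decomposition group of `𝔓`. -/
def LocallyZero (A : Over (Spec (.of K))) [GrpObj A] [IsAbVar A]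
    (F : IntermediateField K (AlgebraicClosure K)) [Normal K F]
    (P : (F ≃ₐ[K] F) → Pts A (⊥ : IntermediateField K (AlgebraicClosure K)))
    (𝔓 : Ideal (𝓞 (AlgebraicClosure K))) : Prop :=
  ∃ Y, ∃ Z : (F ≃ₐ[K] F) → Pts A (AlgebraicClosure K),
    IsLocalPt A F 𝔓 Y ∧ (∀ s, IsLocalPt A F 𝔓 (Z s)) ∧
    (∀ s ∈ decomp K 𝔓, galHom A s Y - Y = toBar A ⊥ (P (AlgEquiv.restrictNormalHom F s)) +
      (Z (AlgEquiv.restrictNormalHom F s) + Z (AlgEquiv.restrictNormalHom F s))) ∧
    ∀ s ∈ decomp K 𝔓, ∀ t ∈ decomp K 𝔓, ∃ Q,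
      Z (AlgEquiv.restrictNormalHom F s) + galHom A s (Z (AlgEquiv.restrictNormalHom F t)) -
        Z (AlgEquiv.restrictNormalHom F (s * t)) = toBar A ⊥ Q

end gal

section numberField

variable {K : Type u} [Field K] [NumberField K]

/-- `Gal(F/K)` is the decomposition group of the finite place `v`, and for all fields `K ≠ L ⊆ F` the
abelian variety `A` is semistable over `L_w`, `w` above `v`, and the rank of the split part of the
torus of its reduction is odd. -/
def OddTorus (A : Over (Spec (.of K))) [GrpObj A] [IsAbVar A]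
    (F : IntermediateField K (AlgebraicClosure K)) [Normal K F] (v : HeightOneSpectrum (𝓞 K)) :
    Prop :=
  ∀ 𝔓, Above 𝔓 v →
    (∀ s : F ≃ₐ[K] F, ∃ g ∈ decomp K 𝔓, AlgEquiv.restrictNormalHom F g = s) ∧
    ∀ L : IntermediateField K (AlgebraicClosure K), L ≤ F → L ≠ ⊥ → SemistableOver A L 𝔓 ∧
      ∀ (ℓ : ℕ) [Fact ℓ.Prime], (ℓ : 𝓞 (AlgebraicClosure K)) ∉ 𝔓 → Odd (localRank A ℓ L 𝔓)

end numberField

end Pool.Agent.H.MP_ac3185_nt
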