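import Pool.Agent.H.MP_ac3185_nt.S.Rank
import Pool.Agent.H.MP_ac3185_nt.S.Root
import Pool.Agent.H.MP_ac3185_nt.S.Nil

/-! Q1 (the parity conjecture) over `2`-extensions in which the rank does not grow, and over the
extensions with a normal `2`-complement above them. -/

set_option autoImplicit false

open CategoryTheory AlgebraicGeometry NumberField IsDedekindDomain
open scoped MonObj
open Pool.Agent.H.MP_ac3185_nt

namespace Pool.Agent.H.MP_ac3185_nt.Silent2

universe u

/-- Let `F / K` be a finite Galois extension of number fields (inside an algebraic closure of `K`)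
whose group `G` is a `2`-group, `A / K` an abelian variety of dimension `g` with `A(K)[2] = 0`, `S` a
set and `T` a finite set of finite places of `K` such that

(1) `H¹(Gal(F_w/K_v), A(F_w))[2] = 0` at all places `v` of `K` outside `S`, finite or infinite (no
condition if `v` splits completely in `F`);

(2) every element of `H¹(K, A)[2]` which is locally trivial outside `S` is zero;

(3) if `P : G → A(K)` is a function such that at every `v ∈ S` there are `Y ∈ A(F_w)` and
`Z : G → A(F_w)` with `s Y - Y = P(s) + 2 Z(s)` and `Z(s) + s Z(t) - Z(s t) ∈ A(K)` for `s`, `t` in the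
decomposition group of `w`, then the values of `P` lie in `2 A(K)`;

(4) for `v ∈ T` the decomposition group is `G`, and over `L_w` for `K ≠ L ⊆ F` the abelian variety `A`
is semistable, with a torus whose split part has odd rank;

(5) every finite place `v ∉ T` splits completely in `F`, or for `K ≠ L ⊆ F` the abelian variety `A` is
semistable over `L_w`, with a torus whose split part has even rank (e.g. `A` has good reduction).

(I) For all fields `K ≠ L ⊆ F` the rank of `A(L)` is the rank of `A(K)`, and the global root number
of `A` over `L` is `(-1) ^ (g n + #T)`, where `n` is the number of infinite places of `L`. So the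
parity conjecture holds for `A` over `L` if and only if the rank of `A(K)` is congruent to
`g n + #T` modulo `2`.

(II) Let `M / K` be a finite Galois extension whose group has a normal `2`-complement, such that
there are quadratic extensions of `K` in `M`, all of them lie in `F`, and `A` is semistable at the
finite places of `K` which ramify in `M`. Then the ranks of `A(M)` and `A(K)` are congruent modulo `2`,
and the global root number of `A` over `M` is `(-1) ^ (g n + #T)`, where `n` is the number of infinite
places of `M`. So the parity conjecture holds for `A` over `M` if and only if the rank of `A(K)` is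
congruent to `g n + #T` modulo `2`. -/
theorem result {K : Type u} [Field K] [NumberField K]
    (F : IntermediateField K (AlgebraicClosure K)) [FiniteDimensional K F] [IsGalois K F]
    (hG : IsPGroup 2 (F ≃ₐ[K] F))
    (A : Over (Spec (.of K))) [GrpObj A] [IsAbVar A] (g : ℕ)
    (_hg : topologicalKrullDim A.left = g)
    (hMW : ∀ E : IntermediateField K (AlgebraicClosure K), FiniteDimensional K E →
      Module.Finite ℤ (Pts A E))
    (W : LocalSigns K) (hW : IsRootNumbers A W)
    (h2 : ∀ x : Pts A (⊥ : IntermediateField K (AlgebraicClosure K)), x + x = 0 → x = 0)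
    (S : Set (HeightOneSpectrum (𝓞 K))) (T : Finset (HeightOneSpectrum (𝓞 K)))
    (hfin : ∀ v ∉ S, ∀ 𝔓, Above 𝔓 v → LocalTwoTrivial A F (decomp K 𝔓))
    (hinf : ∀ e, LocalTwoTrivial A F (infDecomp e))
    (hSha : ShaTwoTrivial A S)
    (hloc : ∀ P : (F ≃ₐ[K] F) → Pts A (⊥ : IntermediateField K (AlgebraicClosure K)),
      (∀ v ∈ S, ∀ 𝔓, Above 𝔓 v → LocallyZero A F P 𝔓) → ∀ s, ∃ Q, P s = Q + Q)
    (hT : ∀ v ∈ T, OddTorus A F v)
    (hT' : ∀ v ∉ T, SplitsIn F v ∨ EvenTorus A F v) :
    (∀ L : IntermediateField K (AlgebraicClosure K), L ≤ F → L ≠ ⊥ →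
      Module.finrank ℤ (Pts A L) =
        Module.finrank ℤ (Pts A (⊥ : IntermediateField K (AlgebraicClosure K))) ∧
      signOver W g L = (-1) ^ (g * Nat.card (InfinitePlace L) + T.card) ∧
      ((-1) ^ Module.finrank ℤ (Pts A L) = signOver W g L ↔
        Module.finrank ℤ (Pts A (⊥ : IntermediateField K (AlgebraicClosure K))) ≡
          g * Nat.card (InfinitePlace L) + T.card [MOD 2])) ∧
    (∀ (M : IntermediateField K (AlgebraicClosure K)) [FiniteDimensional K M] [IsGalois K M],
      QuadraticIn M F →
      (∀ v : HeightOneSpectrum (𝓞 K), Ramified M v → ∀ 𝔓, Above 𝔓 v → SemistableOver A ⊥ 𝔓) →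
      Module.finrank ℤ (Pts A M) ≡
        Module.finrank ℤ (Pts A (⊥ : IntermediateField K (AlgebraicClosure K))) [MOD 2] ∧
      signOver W g M = (-1) ^ (g * Nat.card (InfinitePlace M) + T.card) ∧
      ((-1) ^ Module.finrank ℤ (Pts A M) = signOver W g M ↔
        Module.finrank ℤ (Pts A (⊥ : IntermediateField K (AlgebraicClosure K))) ≡
          g * Nat.card (InfinitePlace M) + T.card [MOD 2])) := by
  have hpow : ∀ a b : ℕ, ((-1 : ℤ)) ^ a = (-1) ^ b ↔ a ≡ b [MOD 2] := by
    intro a b
    rw [neg_one_pow_eq_pow_mod_two, neg_one_pow_eq_pow_mod_two (n := b)]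
    unfold Nat.ModEq
    rcases Nat.mod_two_eq_zero_or_one a with h | h <;>
      rcases Nat.mod_two_eq_zero_or_one b with h' | h' <;> rw [h, h'] <;> norm_num
  have hMWF := hMW F inferInstance
  have hI : ∀ L : IntermediateField K (AlgebraicClosure K), L ≤ F → L ≠ ⊥ →
      Module.finrank ℤ (Pts A L) =
        Module.finrank ℤ (Pts A (⊥ : IntermediateField K (AlgebraicClosure K))) ∧
      signOver W g L = (-1) ^ (g * Nat.card (InfinitePlace L) + T.card) := fun L hL hL' =>
    ⟨sr_rank F hG A h2 S hSha hfin hinf hloc L hL, rt_sign F hG A W hW T hT hT' g L hL hL'⟩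
  constructor
  · intro L hL hL'
    obtain ⟨h3, h4⟩ := hI L hL hL'
    refine ⟨h3, h4, ?_⟩
    rw [h3, h4]
    exact hpow _ _
  · intro M _ _ hM hss
    have hMWM := hMW M inferInstance
    obtain ⟨h3, h4⟩ := nil_main A W hW g M hss F hM _ T.card rfl hI
    refine ⟨h3, h4, ?_⟩
    rw [h4, hpow]
    exact ⟨fun h => h3.symm.trans h, fun h => h3.trans h⟩

end Pool.Agent.H.MP_ac3185_nt.Silent2
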