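import Pool.Agent.H.MP_ac3185_nt.S.Defs
import Pool.Agent.H.MP_ac3185_nt.S.Alg

/-! Points over `2`-extensions: the two rank statements. -/

set_option autoImplicit false

open CategoryTheory AlgebraicGeometry NumberField IsDedekindDomain
open scoped MonObj

namespace Pool.Agent.H.MP_ac3185_nt

universe u

section bar

variable {K : Type u} [Field K]

theorem sp_bar_inj (A : Over (Spec (.of K))) [GrpObj A] [IsAbVar A]
    (L : IntermediateField K (AlgebraicClosure K)) : Function.Injective (toBar A L) := by
  have hepi : Epi (Spec.map (CommRingCat.ofHom (algebraMap L (AlgebraicClosure K)))) :=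
    ptsa_epi _
  intro y y' h
  have h1 : barMap L ≫ (Additive.toMul y : specOver K L ⟶ A) =
      barMap L ≫ (Additive.toMul y' : specOver K L ⟶ A) := h
  have h2 : Spec.map (CommRingCat.ofHom (algebraMap L (AlgebraicClosure K))) ≫
      (Additive.toMul y : specOver K L ⟶ A).left =
      Spec.map (CommRingCat.ofHom (algebraMap L (AlgebraicClosure K))) ≫
      (Additive.toMul y' : specOver K L ⟶ A).left :=
    congrArg (fun m : specOver K (AlgebraicClosure K) ⟶ A => m.left) h1
  have h3 := (cancel_epi _).1 h2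
  exact congrArg Additive.ofMul (Over.OverMorphism.ext h3)

theorem sp_bar_gal (A : Over (Spec (.of K))) [GrpObj A] [IsAbVar A]
    (F : IntermediateField K (AlgebraicClosure K)) [Normal K F]
    (g : AlgebraicClosure K ≃ₐ[K] AlgebraicClosure K) (y : Pts A F) :
    galHom A g (toBar A F y) = toBar A F (galHom A (AlgEquiv.restrictNormalHom F g) y) := by
  show Additive.ofMul (specGal g ≫ (barMap F ≫ (Additive.toMul y : specOver K F ⟶ A))) =
    Additive.ofMul (barMap F ≫ (specGal (AlgEquiv.restrictNormalHom F g) ≫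
      (Additive.toMul y : specOver K F ⟶ A)))
  have h1 : specGal g ≫ barMap F = barMap F ≫ specGal (AlgEquiv.restrictNormalHom F g) := by
    apply Over.OverMorphism.ext
    show Spec.map (CommRingCat.ofHom (g : AlgebraicClosure K →+* AlgebraicClosure K)) ≫
      Spec.map (CommRingCat.ofHom (algebraMap F (AlgebraicClosure K))) =
      Spec.map (CommRingCat.ofHom (algebraMap F (AlgebraicClosure K))) ≫
      Spec.map (CommRingCat.ofHom ((AlgEquiv.restrictNormalHom F g : F ≃ₐ[K] F) : F →+* F))
    rw [← Spec.map_comp, ← Spec.map_comp]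
    congr 1
    ext z
    exact (AlgEquiv.restrictNormal_commutes g F z).symm
  rw [← Category.assoc, h1, Category.assoc]

theorem sp_bar_fix (A : Over (Spec (.of K))) [GrpObj A] [IsAbVar A]
    (L : IntermediateField K (AlgebraicClosure K))
    (g : AlgebraicClosure K ≃ₐ[K] AlgebraicClosure K) (hg : g ∈ L.fixingSubgroup) (y : Pts A L) :
    galHom A g (toBar A L y) = toBar A L y := by
  show Additive.ofMul (specGal g ≫ (barMap L ≫ (Additive.toMul y : specOver K L ⟶ A))) =
    Additive.ofMul (barMap L ≫ (Additive.toMul y : specOver K L ⟶ A))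
  have h1 : specGal g ≫ barMap L = barMap L := by
    apply Over.OverMorphism.ext
    show Spec.map (CommRingCat.ofHom (g : AlgebraicClosure K →+* AlgebraicClosure K)) ≫
      Spec.map (CommRingCat.ofHom (algebraMap L (AlgebraicClosure K))) =
      Spec.map (CommRingCat.ofHom (algebraMap L (AlgebraicClosure K)))
    rw [← Spec.map_comp]
    congr 1
    ext z
    exact (IntermediateField.mem_fixingSubgroup_iff _ _).1 hg z z.2
  rw [← Category.assoc, h1]

theorem sp_bar_j (A : Over (Spec (.of K))) [GrpObj A] [IsAbVar A]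
    {F L : IntermediateField K (AlgebraicClosure K)} (hL : L ≤ F) (y : Pts A L) :
    toBar A F (ptsa_j A hL y) = toBar A L y := by
  show Additive.ofMul (barMap F ≫ (ptsa_map hL ≫ (Additive.toMul y : specOver K L ⟶ A))) =
    Additive.ofMul (barMap L ≫ (Additive.toMul y : specOver K L ⟶ A))
  have h1 : barMap F ≫ ptsa_map hL = barMap L := by
    apply Over.OverMorphism.ext
    show Spec.map (CommRingCat.ofHom (algebraMap F (AlgebraicClosure K))) ≫
      Spec.map (CommRingCat.ofHom (IntermediateField.inclusion hL : L →+* F)) =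
      Spec.map (CommRingCat.ofHom (algebraMap L (AlgebraicClosure K)))
    rw [← Spec.map_comp]
    congr 1
  rw [← Category.assoc, h1]

theorem sp_j_inj (A : Over (Spec (.of K))) [GrpObj A] [IsAbVar A]
    {F L : IntermediateField K (AlgebraicClosure K)} (hL : L ≤ F) :
    Function.Injective (ptsa_j A hL) := by
  intro x y h
  apply sp_bar_inj A L
  rw [← sp_bar_j A hL, ← sp_bar_j A hL, h]

variable [CharZero K]

theorem sp_bar_of_fixed (A : Over (Spec (.of K))) [GrpObj A] [IsAbVar A]
    (L : IntermediateField K (AlgebraicClosure K)) (x : Pts A (AlgebraicClosure K))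
    (hx : ∀ g ∈ L.fixingSubgroup, galHom A g x = x) : ∃ y, toBar A L y = x := by
  have hgal : IsGalois K (AlgebraicClosure K) := inferInstance
  have hepi : Epi (Spec.map (CommRingCat.ofHom (algebraMap L (AlgebraicClosure K)))) :=
    ptsa_epi _
  obtain ⟨y, hy⟩ := ptsa_factor (algebraMap L (AlgebraicClosure K))
    {g | ∃ s ∈ L.fixingSubgroup, g = (s : AlgebraicClosure K →+* AlgebraicClosure K)} (by
      intro z hz
      have h1 : z ∈ IntermediateField.fixedField L.fixingSubgroup := by
        rw [IntermediateField.mem_fixedField_iff]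
        intro g hg
        exact hz _ ⟨g, hg, rfl⟩
      rw [InfiniteGalois.fixedField_fixingSubgroup] at h1
      exact ⟨⟨z, h1⟩, rfl⟩) A.left (Additive.toMul x : specOver K (AlgebraicClosure K) ⟶ A).left (by
      rintro _ ⟨g, hg, rfl⟩
      have h1 : specGal g ≫ (Additive.toMul x : specOver K (AlgebraicClosure K) ⟶ A) =
        (Additive.toMul x : specOver K (AlgebraicClosure K) ⟶ A) := hx g hg
      exact congrArg (fun m : specOver K (AlgebraicClosure K) ⟶ A => m.left) h1)
  have hw : y ≫ A.hom = Spec.map (CommRingCat.ofHom (algebraMap K L)) := by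
    rw [← cancel_epi (Spec.map (CommRingCat.ofHom (algebraMap L (AlgebraicClosure K)))),
      ← Category.assoc, hy]
    have e1 : (Additive.toMul x : specOver K (AlgebraicClosure K) ⟶ A).left ≫ A.hom =
      Spec.map (CommRingCat.ofHom (algebraMap K (AlgebraicClosure K))) :=
      Over.w (Additive.toMul x : specOver K (AlgebraicClosure K) ⟶ A)
    rw [e1, ← Spec.map_comp]
    congr 1
  refine ⟨Additive.ofMul (Over.homMk y hw : specOver K L ⟶ A), ?_⟩
  show Additive.ofMul (barMap L ≫ (Over.homMk y hw : specOver K L ⟶ A)) = x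
  apply Additive.toMul.injective
  apply Over.OverMorphism.ext
  exact hy

/-- Galois descent from `F` to `L`. -/
theorem sp_descent (A : Over (Spec (.of K))) [GrpObj A] [IsAbVar A]
    {F L : IntermediateField K (AlgebraicClosure K)} [Normal K F] (hL : L ≤ F) (x : Pts A F)
    (hx : ∀ g ∈ relGal F L, galHom A g x = x) : ∃ y, ptsa_j A hL y = x := by
  obtain ⟨y, hy⟩ := sp_bar_of_fixed A L (toBar A F x) (by
    intro g hg
    rw [sp_bar_gal, hx]
    intro z hz
    apply Subtype.ext
    have h1 := AlgEquiv.restrictNormal_commutes g F z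
    exact h1.trans ((IntermediateField.mem_fixingSubgroup_iff _ _).1 hg z hz))
  refine ⟨y, sp_bar_inj A F ?_⟩
  rw [sp_bar_j, hy]

end bar

section main

variable {K : Type u} [Field K] [NumberField K]

theorem sp_noTwoClass (F : IntermediateField K (AlgebraicClosure K)) [FiniteDimensional K F]
    [IsGalois K F] (A : Over (Spec (.of K))) [GrpObj A] [IsAbVar A]
    (S : Set (HeightOneSpectrum (𝓞 K))) (hSha : ShaTwoTrivial A S)
    (hloc : ∀ v ∉ S, ∀ 𝔓, Above 𝔓 v → LocalTwoTrivial A F (decomp K 𝔓))
    (hinf : ∀ e, LocalTwoTrivial A F (infDecomp e)) :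
    NoTwoClass (fun g : F ≃ₐ[K] F => galHom A g) := by
  intro R hR hP
  obtain ⟨P, hP⟩ := hP
  have hR1 : R 1 = 0 := by
    have h := hR 1 1
    rw [mul_one] at h
    have e : galHom A (1 : F ≃ₐ[K] F) (R 1) = R 1 := by
      rw [ptsb_galHom_one]
      rfl
    rw [e] at h
    exact left_eq_add.1 h
  set c : (AlgebraicClosure K ≃ₐ[K] AlgebraicClosure K) → Pts A (AlgebraicClosure K) :=
    fun g => toBar A F (R (AlgEquiv.restrictNormalHom F g)) with hc
  have hres : ∀ g ∈ F.fixingSubgroup, AlgEquiv.restrictNormalHom F g = 1 := by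
    intro g hg
    ext z
    have h1 := AlgEquiv.restrictNormal_commutes g F z
    exact h1.trans ((IntermediateField.mem_fixingSubgroup_iff _ _).1 hg z z.2)
  have hzero : ∀ g ∈ F.fixingSubgroup, c g = 0 := by
    intro g hg
    rw [hc]
    simp only
    rw [hres g hg, hR1, map_zero]
  have hcoc : CocycleOn A Set.univ c := by
    intro s _ t _
    rw [hc]
    simp only
    rw [map_mul, hR, map_add, sp_bar_gal]
  have hdbl : TrivialOn A Set.univ (fun g => c g + c g) := by
    refine ⟨toBar A F P, fun g _ => ?_⟩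
    rw [hc]
    simp only
    rw [← map_add, hP, map_sub, sp_bar_gal]
  obtain ⟨Q, hQ⟩ := hSha c hcoc ⟨F, inferInstance, hzero⟩ hdbl (by
    intro v hv 𝔓 h𝔓
    refine hloc v hv 𝔓 h𝔓 c (fun s _ t _ => hcoc s trivial t trivial)
      (fun g _ hg => hzero g hg) ?_
    obtain ⟨Q, hQ⟩ := hdbl
    exact ⟨Q, fun g _ => hQ g trivial⟩) (by
    intro e
    refine hinf e c (fun s _ t _ => hcoc s trivial t trivial) (fun g _ hg => hzero g hg) ?_
    obtain ⟨Q, hQ⟩ := hdbl
    exact ⟨Q, fun g _ => hQ g trivial⟩)
  obtain ⟨Q', rfl⟩ := sp_bar_of_fixed A F Q (by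
    intro g hg
    have h := hQ g trivial
    rw [hzero g hg] at h
    exact (sub_eq_zero.1 h.symm))
  refine ⟨Q', fun s => ?_⟩
  obtain ⟨g, rfl⟩ := AlgEquiv.restrictNormalHom_surjective (K₁ := F) (AlgebraicClosure K) s
  apply sp_bar_inj A F
  have h := hQ g trivial
  rw [map_sub, ← sp_bar_gal]
  exact h

end main

end Pool.Agent.H.MP_ac3185_nt
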