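import Pool.Agent.H.MP_ac3185_nt.S.Pts

/-! The two rank statements. -/

set_option autoImplicit false

open CategoryTheory AlgebraicGeometry NumberField IsDedekindDomain
open scoped MonObj

namespace Pool.Agent.H.MP_ac3185_nt

universe u

/-- No `2`-torsion fixed by a `2`-group: no `2`-torsion. -/
theorem sr_no_two {G : Type*} [Group G] {M : Type*} [AddCommGroup M] [Module.Finite ℤ M]
    (hG : IsPGroup 2 G) (φ : G → M →+ M)
    (h1 : ∀ m, φ 1 m = m) (hm : ∀ s t m, φ (s * t) m = φ s (φ t m))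
    (h : ∀ m, (∀ s, φ s m = m) → m + m = 0 → m = 0) (m : M) (h2 : m + m = 0) : m = 0 := by
  by_contra hne
  let T : AddSubgroup M :=
    { carrier := {x | x + x = 0}
      zero_mem' := by simp
      add_mem' := by
        intro a b ha hb
        have ha' : a + a = 0 := ha
        have hb' : b + b = 0 := hb
        show (a + b) + (a + b) = 0
        have : (a + b) + (a + b) = (a + a) + (b + b) := by abel
        rw [this, ha', hb', add_zero]
      neg_mem' := by
        intro a ha
        have ha' : a + a = 0 := ha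
        show -a + -a = 0
        have : -a + -a = -(a + a) := by abel
        rw [this, ha', neg_zero] }
  have hT : ∀ s, ∀ x ∈ T, φ s x ∈ T := by
    intro s x hx
    have hx' : x + x = 0 := hx
    show φ s x + φ s x = 0
    rw [← map_add, hx', map_zero]
  have hfin : Module.Finite ℤ T :=
    Module.Finite.of_injective T.subtype.toIntLinearMap Subtype.val_injective
  let ψ : G → T →+ T := fun s => ((φ s).comp T.subtype).codRestrict T fun x => hT s x x.2
  obtain ⟨P, hP, hPs⟩ := sa_exists_fixed hG ψ (fun x => Subtype.ext (h1 x))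
    (fun s t x => Subtype.ext (hm s t x)) ⊥ (by
      intro s n hn
      rw [AddSubgroup.mem_bot] at hn ⊢
      rw [hn, map_zero]) (fun x => AddSubgroup.mem_bot.2 (Subtype.ext x.2))
    ⟨⟨m, h2⟩, fun hc => hne (congrArg Subtype.val (AddSubgroup.mem_bot.1 hc))⟩
  apply hP
  rw [AddSubgroup.mem_bot]
  apply Subtype.ext
  refine h P (fun s => ?_) P.2
  have := congrArg Subtype.val (AddSubgroup.mem_bot.1 (hPs s))
  exact sub_eq_zero.1 this

variable {K : Type u} [Field K] [NumberField K]

theorem sr_gal_one (A : Over (Spec (.of K))) [GrpObj A] [IsAbVar A] {L : Type u} [Field L]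
    [Algebra K L] (m : Pts A L) : galHom A (1 : L ≃ₐ[K] L) m = m := by
  rw [ptsb_galHom_one]
  rfl

theorem sr_gal_mul (A : Over (Spec (.of K))) [GrpObj A] [IsAbVar A] {L : Type u} [Field L]
    [Algebra K L] (s t : L ≃ₐ[K] L) (m : Pts A L) :
    galHom A (s * t) m = galHom A s (galHom A t m) := by
  rw [ptsb_galHom_mul]
  rfl

theorem sr_two (F : IntermediateField K (AlgebraicClosure K)) [FiniteDimensional K F]
    [IsGalois K F] (hG : IsPGroup 2 (F ≃ₐ[K] F)) (A : Over (Spec (.of K))) [GrpObj A] [IsAbVar A]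
    [Module.Finite ℤ (Pts A F)]
    (h2 : ∀ x : Pts A (⊥ : IntermediateField K (AlgebraicClosure K)), x + x = 0 → x = 0)
    (m : Pts A F) (hm : m + m = 0) : m = 0 := by
  refine sr_no_two hG (fun g : F ≃ₐ[K] F => galHom A g) (sr_gal_one A) (sr_gal_mul A) ?_ m hm
  intro x hx hxx
  obtain ⟨y, rfl⟩ := sp_descent A (bot_le : (⊥ : IntermediateField K (AlgebraicClosure K)) ≤ F) x
    (fun g _ => hx g)
  rw [h2 y (sp_j_inj A bot_le (by rw [map_add, hxx, map_zero])), map_zero]

/-- A cocycle which is trivial at `F` is trivial. -/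
theorem sr_local_split (A : Over (Spec (.of K))) [GrpObj A] [IsAbVar A]
    (F : IntermediateField K (AlgebraicClosure K))
    (D : Set (AlgebraicClosure K ≃ₐ[K] AlgebraicClosure K))
    (hD : D ⊆ (F.fixingSubgroup : Set (AlgebraicClosure K ≃ₐ[K] AlgebraicClosure K))) :
    LocalTwoTrivial A F D := by
  intro c _ hc _
  refine ⟨0, fun g hg => ?_⟩
  rw [hc g hg (hD hg), map_zero, sub_zero]

/-- The rank does not grow. -/
theorem sr_rank (F : IntermediateField K (AlgebraicClosure K)) [FiniteDimensional K F]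
    [IsGalois K F] (hG : IsPGroup 2 (F ≃ₐ[K] F)) (A : Over (Spec (.of K))) [GrpObj A] [IsAbVar A]
    [Module.Finite ℤ (Pts A F)]
    (h2 : ∀ x : Pts A (⊥ : IntermediateField K (AlgebraicClosure K)), x + x = 0 → x = 0)
    (S : Set (HeightOneSpectrum (𝓞 K))) (hSha : ShaTwoTrivial A S)
    (hloc : ∀ v ∉ S, ∀ 𝔓, Above 𝔓 v → LocalTwoTrivial A F (decomp K 𝔓))
    (hinf : ∀ e, LocalTwoTrivial A F (infDecomp e))
    (hLC : ∀ P : (F ≃ₐ[K] F) → Pts A (⊥ : IntermediateField K (AlgebraicClosure K)),
      (∀ v ∈ S, ∀ 𝔓, Above 𝔓 v → LocallyZero A F P 𝔓) → ∀ s, ∃ Q, P s = Q + Q)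
    (L : IntermediateField K (AlgebraicClosure K)) (hL : L ≤ F) :
    Module.finrank ℤ (Pts A L) =
      Module.finrank ℤ (Pts A (⊥ : IntermediateField K (AlgebraicClosure K))) := by
  have h2F := sr_two F hG A h2
  have hb : (⊥ : IntermediateField K (AlgebraicClosure K)) ≤ F := bot_le
  have hdesc : ∀ x : Pts A F, (∀ s : F ≃ₐ[K] F, galHom A s x = x) → ∃ y, ptsa_j A hb y = x :=
    fun x hx => sp_descent A hb x fun g _ => hx g
  have hF : Module.finrank ℤ (Pts A F) =
      Module.finrank ℤ (Pts A (⊥ : IntermediateField K (AlgebraicClosure K))) := by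
    refine sa_rank_eq (ptsa_j A hb) (sp_j_inj A hb) fun m => ?_
    obtain ⟨m₀, m', h0, hm'⟩ := sa_span hG (fun g : F ≃ₐ[K] F => galHom A g) (sr_gal_one A)
      (sr_gal_mul A) h2F (sp_noTwoClass F A S hSha hloc hinf) (by
        intro P Z Y hP hY hZ
        choose P' hP' using fun s => hdesc (P s) fun r => hP r s
        choose q hq using fun s t => hdesc (Z s + galHom A s (Z t) - Z (s * t)) (hZ s t)
        have hpt : ∀ 𝔓, ∀ x : Pts A F, IsLocalPt A F 𝔓 (toBar A F x) := fun 𝔓 x s _ hs =>
          sp_bar_fix A F s hs x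
        intro s
        obtain ⟨Q, hQ⟩ := hLC P' (fun v _ 𝔓 _ => by
          refine ⟨toBar A F Y, fun s => toBar A F (Z s), hpt 𝔓 Y, fun s => hpt 𝔓 (Z s), ?_, ?_⟩
          · intro s _
            rw [sp_bar_gal, ← map_sub, hY, map_add, map_add, ← hP', sp_bar_j]
          · intro s _ t _
            refine ⟨q (AlgEquiv.restrictNormalHom F s) (AlgEquiv.restrictNormalHom F t), ?_⟩
            rw [sp_bar_gal, map_mul, ← map_add, ← map_sub, ← hq, sp_bar_j]) s
        exact ⟨ptsa_j A hb Q, by rw [← hP', hQ, map_add]⟩) m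
    obtain ⟨n, hn⟩ := hdesc m₀ h0
    exact ⟨n, m', by rw [hn]; exact hm'⟩
  have hfinL : Module.Finite ℤ (Pts A L) :=
    Module.Finite.of_injective (ptsa_j A hL).toIntLinearMap (sp_j_inj A hL)
  have h1 := LinearMap.finrank_le_finrank_of_injective
    (f := (ptsa_j A hL).toIntLinearMap) (sp_j_inj A hL)
  have h3 := LinearMap.finrank_le_finrank_of_injective
    (f := (ptsa_j A (bot_le : (⊥ : IntermediateField K (AlgebraicClosure K)) ≤ L)).toIntLinearMap)
    (sp_j_inj A bot_le)
  omega

end Pool.Agent.H.MP_ac3185_nt
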